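import Pool.Agent.TH629.CM.DefsK
import Pool.Agent.TH133.DefsAJ

/-!
# The theory of Chow groups and the kernels of the Abel-Jacobi maps: definitions
-/

open CategoryTheory AlgebraicGeometry

universe u v w

namespace Pool.Agent.TH629.CM.Th

open Pool.Agent.H914 Pool.Agent.H914.VarClass Pool.Agent.H914.VarClass.Obj Pool.Agent.W492.BB
  Pool.Agent.W550.Corr Pool.Agent.TH133

variable {k : Type u} [Field k] {𝒱 : VarClass k}

/-- The Chow groups with rational coefficients as a theory with an action of correspondences. -/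
noncomputable def chow (C : TheoryData.{u, v, 0} 𝒱 ℚ) : Theory.{u, v, v} C where
  M X := C.A X
  act Γ x := C.act Γ x

variable {C : TheoryData.{u, v, 0} 𝒱 ℚ} {K : Type w} [Field K] {H : WeilTheoryData.{u, v, w} C K}

/-- The Abel-Jacobi maps on `CH^m(X)_hom ⊗ ℚ` are injective for all `X` of dimension `n`. -/
def AJInjectiveIn (T : AbelJacobi H) (m n : ℕ) : Prop :=
  ∀ X : 𝒱.Obj, X.dim = n → ∀ z : C.A X, T.Ker m z → z = 0

/-- The identity `a` holds in dimension `n` for the kernels of the Abel-Jacobi maps on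
`CH^m(U)_hom ⊗ ℚ`, `U` in the class `𝒰`. -/
def HoldsOnKernels (T : AbelJacobi H) (m : ℕ) (a : Ident) (n : ℕ) (𝒰 : 𝒱.Obj → Prop) : Prop :=
  HoldsOn (chow C) (fun _ z => T.Ker m z) a n 𝒰

end Pool.Agent.TH629.CM.Th
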