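import Pool.Agent.TH629.CM.Final
import Pool.Agent.TH629.CM.DefsCyc
import Pool.Agent.TH133.AJ
import Pool.Agent.TH133.AlgEq
import Pool.Agent.TH133.Pg

/-!
# Identities on the kernels of the Abel-Jacobi maps
-/

open CategoryTheory AlgebraicGeometry

universe u v w

namespace Pool.Agent.TH629.CM.Th

open Pool.Agent.H914 Pool.Agent.H914.VarClass Pool.Agent.H914.VarClass.Obj Pool.Agent.W492.BB
  Pool.Agent.W550.Corr Pool.Agent.TH133

variable {k : Type u} [Field k] {𝒱 : VarClass k} {C : TheoryData.{u, v, 0} 𝒱 ℚ}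
  [hC : IsChowProj C] {X Y Z W : 𝒱.Obj}

include hC in
lemma isAction_chow : IsAction (chow C) where
  bilinear :=
    { act_add := fun Γ x y => act_map_add C Γ x y
      add_act := fun Γ Δ x => C.act_add Γ Δ x
      smul_act := fun q Γ x => act_smul_left (cycles C) q Γ x }
  act_comp := fun Γ Δ x => C.act_comp Γ Δ x
  act_dg := fun x => act_dg C x

variable {K : Type w} [Field K] {H : WeilTheoryData.{u, v, w} C K} [hH : IsWeilProj H]

include hC hH

/-- Homologically trivial cycles are numerically trivial. -/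
lemma hasDegree_mul {m : ℕ} {z : C.A X} (hz : z ∈ homTriv H X m) (a : C.A X) :
    HasDegree C (a * z) 0 := by
  have htop : a ∈ (⨆ i, C.gr X i) := by
    rw [(C.isInternal X).submodule_iSup_eq_top]
    exact Submodule.mem_top
  refine Submodule.iSup_induction (fun i => C.gr X i)
    (motive := fun a => HasDegree C (a * z) 0) htop ?_ ?_ ?_
  · intro i b hb
    have h1 : b * z ∈ C.gr X (i + m) := C.mul_mem hb hz.1
    by_cases hi : i + m = X.dim
    · refine hasDegree_zero_of_cl H (by rwa [hi] at h1) ?_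
      have h2 : H.cl z = 0 := hz.2
      rw [map_mul, h2, mul_zero]
    · exact hasDegree_of_ne h1 hi
  · rw [zero_mul]
    exact hasDegree_zero
  · intro b c hb hc
    rw [add_mul]
    have := hasDegree_add hb hc
    rwa [add_zero] at this

/-- The kernel of the Abel-Jacobi map as a subspace. -/
def kerSub {T : AbelJacobi H} (hT : T.IsFunctorial) (m : ℕ) (X : 𝒱.Obj) : Submodule ℚ (C.A X) where
  carrier := {z | T.Ker m z}
  zero_mem' := by
    refine ⟨Submodule.zero_mem _, ?_⟩
    have h := hT.add X m 0 (Submodule.zero_mem _) 0 (Submodule.zero_mem _)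
    rw [add_zero] at h
    exact left_eq_add.1 h
  add_mem' := by
    intro a b ha hb
    refine ⟨Submodule.add_mem _ ha.1 hb.1, ?_⟩
    rw [hT.add X m a ha.1 b hb.1, ha.2, hb.2, add_zero]
  smul_mem' := by
    intro q z hz
    have h1 : C.Deg X.dim (q • dg C X) := Submodule.smul_mem _ _ (dg_mem (C := C) X)
    have h2 := ker_act hT h1 (i := m) (j := m) rfl hz
    have h3 : C.act (q • dg C X) z = q • z := by
      rw [act_smul_left (cycles C) q (dg C X) z |> fun h => (h : C.act (q • dg C X) z =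
        q • C.act (dg C X) z), act_dg]
    rw [h3] at h2
    exact h2

/-- The Abel-Jacobi maps are injective if and only if one identity holds on their kernels. -/
theorem aj_iff (T : AbelJacobi H) (hT : T.IsFunctorial) (m n : ℕ) (𝒰 : 𝒱.Obj → Prop)
    (h𝒰 : ∀ X, 𝒰 X → X.dim = n) (hsec : HasPermSections C n (fun X => X.dim = n) 𝒰) (a : Ident) :
    AJInjectiveIn T m n ↔ HoldsOnKernels T m a n 𝒰 := by
  have h := vanishing_iff_isLaw (cycles C) (F := kerSub hT m) (n := n)
    (fun X Y hX hY Γ hΓ x hx => ker_act hT (j := m) hΓ (by rw [hX]) hx)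
    (isReduced_cycles fun X _ x hx a => hasDegree_mul (H := H) (m := m) hx.1 a)
    (𝒮 := fun X => X.dim = n) (𝒰 := 𝒰) (fun _ h => h) h𝒰 hsec a.T a.ne_zero
  exact h

/-- It is enough to have an identity in infinitely many dimensions. -/
theorem aj_all_iff (T : AbelJacobi H) (hT : T.IsFunctorial) (m : ℕ)
    (hdim : ∀ e : ℕ, ∃ V : 𝒱.Obj, V.dim = e) (𝒰 : ℕ → 𝒱.Obj → Prop) (h𝒰 : IsLarge C 𝒰)
    (a : ℕ → Ident) :
    (∀ n, AJInjectiveIn T m n) ↔ ∀ N : ℕ, ∃ n, N ≤ n ∧ HoldsOnKernels T m (a n) n (𝒰 n) := by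
  refine ⟨fun h N => ⟨N, le_rfl, (aj_iff T hT m N _ (h𝒰 N).1 (h𝒰 N).2 (a N)).1 (h N)⟩,
    fun h n X hX z hz => ?_⟩
  obtain ⟨n', hn, hl⟩ := h X.dim
  obtain ⟨V, hV⟩ := hdim (n' - X.dim)
  obtain ⟨Θ, hΘ⟩ := exists_retraction (C := C) X V
  have h1 : C.Deg X.dim (C.cograph (fst X V)) := cograph_mem (C := C) (fst X V)
  have h2 : T.Ker m (C.act (C.cograph (fst X V)) z) := ker_act hT h1 (j := m) rfl hz
  have h3 := (aj_iff T hT m n' _ (h𝒰 n').1 (h𝒰 n').2 (a n')).2 hl (X.prod V)
    (by rw [dim_prod, hV]; omega) _ h2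
  rw [← act_dg C z, ← hΘ, C.act_comp, h3, TheoryData.act_map_zero]

end Pool.Agent.TH629.CM.Th
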