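import Pool.Agent.TH133.Defs
import Mathlib.Data.Finsupp.Basic
import Mathlib.Algebra.BigOperators.Finsupp.Basic
import Mathlib.CategoryTheory.Endomorphism

/-!
# Identities for the action of correspondences and automorphisms on theories with correspondences:
definitions
-/

open CategoryTheory AlgebraicGeometry

universe u v w

namespace Pool.Agent.TH629.CM

open Pool.Agent.H914 Pool.Agent.H914.VarClass Pool.Agent.H914.VarClass.Obj Pool.Agent.W492.BB
  Pool.Agent.W550.Corr Pool.Agent.TH133

variable {k : Type u} [Field k] {𝒱 : VarClass k}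

/-- A theory `X ↦ M X` with values in rational vector spaces on which correspondences act, in a
bilinear way and compatibly with the composition of correspondences. -/
structure CorrMod (C : TheoryData.{u, v, 0} 𝒱 ℚ) where
  /-- the rational vector space of `X` -/
  M : 𝒱.Obj → Type w
  [grp : ∀ X, AddCommGroup (M X)]
  [mod : ∀ X, Module ℚ (M X)]
  /-- the action of the correspondences from `X` to `Y` -/
  act : ∀ {X Y : 𝒱.Obj}, C.A (X.prod Y) →ₗ[ℚ] M X →ₗ[ℚ] M Y
  act_comp : ∀ {X Y Z : 𝒱.Obj} (Γ : C.A (X.prod Y)) (Δ : C.A (Y.prod Z)) (x : M X),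
    act (C.comp Γ Δ) x = act Δ (act Γ x)
  act_dg : ∀ {X : 𝒱.Obj} (x : M X), act (dg C X) x = x

attribute [instance] CorrMod.grp CorrMod.mod

variable {C : TheoryData.{u, v, 0} 𝒱 ℚ}

/-- The family of subspaces `F X` of `D.M X` is stable under the correspondences of degree zero
(that is, in `CH^n(X × Y)`) between varieties of dimension `n`. -/
def IsStable (D : CorrMod.{u, v, w} C) (n : ℕ) (F : ∀ X : 𝒱.Obj, Submodule ℚ (D.M X)) : Prop :=
  ∀ X Y : 𝒱.Obj, X.dim = n → Y.dim = n → ∀ Γ : C.A (X.prod Y), C.Deg n Γ → ∀ x ∈ F X,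
    D.act Γ x ∈ F Y

/-- The correspondences `a × b` between varieties of dimension `n` act on the subspaces `F X` as
zero. -/
def IsReduced (D : CorrMod.{u, v, w} C) (n : ℕ) (F : ∀ X : 𝒱.Obj, Submodule ℚ (D.M X)) : Prop :=
  ∀ X : 𝒱.Obj, X.dim = n → ∀ (a b : C.A X), ∀ x ∈ F X, D.act (C.ext a b) x = 0

/-- Complete intersections of dimension `n`, in the class `𝒰`, in the powers `S^I` of the varieties
of dimension `n` in the class `𝒮`, which are invariant under the permutations of the factors: there
are a variety `U` in `𝒰` with an action `ρ` of the group of permutations of `I`, morphisms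
`f i : U → S` which are permuted by this action and have non-zero degree `m`, and a divisor class
`h` on `S`, such that for `i ≠ j` the image `(f i, f j)_* [U]` in `CH^n(S × S)` is a multiple of
`(h × S + S × h)^n`. (If `I` has at least two elements take `h` sufficiently ample, and for `U` the
intersection of general members of the linear system of the divisors in the class `∑ h_i` which are
defined by symmetric tensors. This linear system has no base points and its morphism is finite, so
`U` is smooth and connected by the theorems of Bertini.) -/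
def HasPermSections (C : TheoryData.{u, v, 0} 𝒱 ℚ) (n : ℕ) (𝒮 𝒰 : 𝒱.Obj → Prop) : Prop :=
  ∀ (S : 𝒱.Obj) (I : Type) [Finite I], 𝒮 S → ∃ (U : 𝒱.Obj) (f : I → (U ⟶ S))
    (ρ : Equiv.Perm I →* Aut U) (h : C.A S) (m c : ℚ), 𝒰 U ∧ C.Deg 1 h ∧ m ≠ 0 ∧
    (∀ i, C.down (f i) 1 = m • (1 : C.A S)) ∧ (∀ π i, (ρ π).inv ≫ f i = f (π i)) ∧
    ∀ i j, i ≠ j →
      C.down (Obj.lift (f i) (f j)) 1 = c • (C.up (fst S S) h + C.up (snd S S) h) ^ n

/-- The value of the letter `(j, b)` for the correspondences `P`: `P j` if `b = false`, and the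
transpose of `P j` if `b = true`. -/
noncomputable def lett (C : TheoryData.{u, v, 0} 𝒱 ℚ) {U : 𝒱.Obj} {κ : Type}
    (P : κ → C.A (U.prod U)) (v : κ × Bool) : C.A (U.prod U) :=
  if v.2 = true then tp C (P v.1) else P v.1

/-- The result of applying to `x` the word `g_0 v_1 g_1 v_2 ⋯ v_N g_N`, from the left to the right,
where the `g_i` are elements of the group `Q`, which acts on `U` by `φ` and on `D.M U` by the graphs
of these automorphisms, and the `v_i` are variables `y_j` (with the values `P j`) or their
transposes; this word is represented by the list of the pairs `(g_{i-1}, v_i)` and by `g_N`. -/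
noncomputable def wordAct (D : CorrMod.{u, v, w} C) {U : 𝒱.Obj} {Q κ : Type} [Group Q]
    (φ : Q →* Aut U) (P : κ → C.A (U.prod U)) (w : List (Q × (κ × Bool)) × Q) (x : D.M U) :
    D.M U :=
  D.act (C.graph (φ w.2).hom)
    (w.1.foldl (fun a b => D.act (lett C P b.2) (D.act (C.graph (φ b.1).hom) a)) x)

/-- The linear combination `p` of words `g_0 v_1 g_1 v_2 ⋯ v_N g_N` (that is, the element `p` of the
free product of the group algebra of `Q` and of the algebra of non-commutative polynomials in the
variables `y_j` and their transposes) acts as zero on `F U` for all varieties `U` of dimension `n` in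
the class `𝒰`, all actions of `Q` on `U` such that the elements of `T` different from `1` act
non-trivially (faithful actions if `T` is the whole group), and all `P j ∈ CH^n(U × U)`. -/
def IsLaw (D : CorrMod.{u, v, w} C) (n : ℕ) (F : ∀ X : 𝒱.Obj, Submodule ℚ (D.M X))
    (𝒰 : 𝒱.Obj → Prop) {Q κ : Type} [Group Q] (T : Finset Q)
    (p : (List (Q × (κ × Bool)) × Q) →₀ ℚ) : Prop :=
  ∀ U : 𝒱.Obj, 𝒰 U → ∀ (φ : Q →* Aut U), (∀ g ∈ T, g ≠ 1 → φ g ≠ 1) →
    ∀ P : κ → C.A (U.prod U), (∀ j, C.Deg n (P j)) →
      ∀ x ∈ F U, (p.sum fun w q => q • wordAct D φ P w x) = 0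

end Pool.Agent.TH629.CM
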