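import Pool.Agent.TH133.Defs
import Mathlib.Data.Finsupp.Basic
import Mathlib.Algebra.BigOperators.Finsupp.Basic
import Mathlib.CategoryTheory.Endomorphism
import Mathlib.GroupTheory.ResiduallyFinite

/-!
# Theories with an action of correspondences, identities and vanishing statements: definitions
-/

open CategoryTheory AlgebraicGeometry

universe u v w

namespace Pool.Agent.TH629.CM.Th

open Pool.Agent.H914 Pool.Agent.H914.VarClass Pool.Agent.H914.VarClass.Obj Pool.Agent.W492.BB
  Pool.Agent.W550.Corr Pool.Agent.TH133

variable {k : Type u} [Field k] {𝒱 : VarClass k}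

/-- A theory `X ↦ M X` with values in rational vector spaces, and with maps `act Γ : M X → M Y` for
the correspondences `Γ` from `X` to `Y`. -/
structure Theory (C : TheoryData.{u, v, 0} 𝒱 ℚ) where
  /-- the rational vector space of `X` -/
  M : 𝒱.Obj → Type w
  [grp : ∀ X, AddCommGroup (M X)]
  [mod : ∀ X, Module ℚ (M X)]
  /-- the action of the correspondences from `X` to `Y` -/
  act : ∀ {X Y : 𝒱.Obj}, C.A (X.prod Y) → M X → M Y

attribute [instance] Theory.grp Theory.mod

variable {C : TheoryData.{u, v, 0} 𝒱 ℚ}

/-- The action of correspondences is bilinear. -/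
structure IsBilinear (D : Theory.{u, v, w} C) : Prop where
  act_add : ∀ {X Y : 𝒱.Obj} (Γ : C.A (X.prod Y)) (x y : D.M X),
    D.act Γ (x + y) = D.act Γ x + D.act Γ y
  add_act : ∀ {X Y : 𝒱.Obj} (Γ Δ : C.A (X.prod Y)) (x : D.M X),
    D.act (Γ + Δ) x = D.act Γ x + D.act Δ x
  smul_act : ∀ {X Y : 𝒱.Obj} (q : ℚ) (Γ : C.A (X.prod Y)) (x : D.M X),
    D.act (q • Γ) x = q • D.act Γ x

/-- The action of correspondences is bilinear and compatible with the composition of
correspondences, and the diagonal acts as the identity. -/
class IsAction (D : Theory.{u, v, w} C) : Prop where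
  bilinear : IsBilinear D
  act_comp : ∀ {X Y Z : 𝒱.Obj} (Γ : C.A (X.prod Y)) (Δ : C.A (Y.prod Z)) (x : D.M X),
    D.act (C.comp Γ Δ) x = D.act Δ (D.act Γ x)
  act_dg : ∀ {X : 𝒱.Obj} (x : D.M X), D.act (dg C X) x = x

/-- The correspondences `a × b` act as zero. -/
def KillsDecomposables (D : Theory.{u, v, w} C) : Prop :=
  ∀ (X : 𝒱.Obj) (a b : C.A X) (x : D.M X), D.act (C.ext a b) x = 0

/-- The theory `D` vanishes for all varieties of dimension `n`. -/
def VanishesIn (D : Theory.{u, v, w} C) (n : ℕ) : Prop :=
  ∀ X : 𝒱.Obj, X.dim = n → ∀ x : D.M X, x = 0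

/-- An identity: a residually finite group `Q`, a finite subset `T`, and a non-zero linear
combination `p` of words `g_0 v_1 g_1 v_2 ⋯ v_N g_N`, the `g_i` in `Q`, each `v_i` a variable `y_j`,
`j ∈ κ`, or the transpose of a variable; this word is represented by the list of the pairs
`(g_{i-1}, v_i)` and by `g_N`, where `v_i = (j, b)` stands for `y_j` if `b = false` and for its
transpose if `b = true`. (So `p` is an element of the free product of the group algebra of `Q` and of
the algebra of non-commutative polynomials in the variables `y_j` and their transposes.) -/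
structure Ident where
  /-- the group -/
  Q : Type
  /-- the index set of the variables -/
  κ : Type
  [grp : Group Q]
  [rf : Group.ResiduallyFinite Q]
  /-- the finite subset of the group -/
  T : Finset Q
  /-- the linear combination of words -/
  p : (List (Q × (κ × Bool)) × Q) →₀ ℚ
  ne_zero : p ≠ 0

attribute [instance] Ident.grp Ident.rf

/-- The value of the letter `(j, b)` for the correspondences `P`: `P j` if `b = false`, and the
transpose of `P j` if `b = true`. -/
noncomputable def lett (C : TheoryData.{u, v, 0} 𝒱 ℚ) {U : 𝒱.Obj} {κ : Type}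
    (P : κ → C.A (U.prod U)) (v : κ × Bool) : C.A (U.prod U) :=
  if v.2 = true then tp C (P v.1) else P v.1

/-- The result of applying to `x` the word `g_0 v_1 g_1 v_2 ⋯ v_N g_N`, from the left to the right,
where `Q` acts on `U` by `φ` and on `D.M U` by the graphs of these automorphisms, and the variables
have the values `P j`. -/
noncomputable def wordAct (D : Theory.{u, v, w} C) {U : 𝒱.Obj} {Q κ : Type} [Group Q]
    (φ : Q →* Aut U) (P : κ → C.A (U.prod U)) (w : List (Q × (κ × Bool)) × Q) (x : D.M U) :
    D.M U :=
  D.act (C.graph (φ w.2).hom)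
    (w.1.foldl (fun a b => D.act (lett C P b.2) (D.act (C.graph (φ b.1).hom) a)) x)

/-- The identity `a` holds in dimension `n` for the subspaces `F U` of the spaces `D.M U`, `U` in the
class `𝒰`: `a.p` acts as zero on `F U` for all `U` in `𝒰`, all actions of the group `a.Q` on `U` in
which the elements of `a.T` different from `1` act non-trivially (so faithful actions if `a.T` is the
whole group), and all values of the variables in `CH^n(U × U)`. -/
def HoldsOn (D : Theory.{u, v, w} C) (F : ∀ X : 𝒱.Obj, D.M X → Prop) (a : Ident) (n : ℕ)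
    (𝒰 : 𝒱.Obj → Prop) : Prop :=
  ∀ U : 𝒱.Obj, 𝒰 U → ∀ (φ : a.Q →* Aut U), (∀ g ∈ a.T, g ≠ 1 → φ g ≠ 1) →
    ∀ P : a.κ → C.A (U.prod U), (∀ j, C.Deg n (P j)) →
      ∀ x, F U x → (a.p.sum fun w q => q • wordAct D φ P w x) = 0

/-- The identity `a` holds in dimension `n` for the theory `D` on the class `𝒰`. -/
def Holds (D : Theory.{u, v, w} C) (a : Ident) (n : ℕ) (𝒰 : 𝒱.Obj → Prop) : Prop :=
  HoldsOn D (fun _ _ => True) a n 𝒰

/-- Complete intersections of dimension `n`, in the class `𝒰`, in the powers `S^I` of the varieties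
of dimension `n` in the class `𝒮`, which are invariant under the permutations of the factors: there
are a variety `U` in `𝒰` with an action `ρ` of the group of permutations of `I`, morphisms
`f i : U → S` which are permuted by this action and have non-zero degree `m`, and a divisor class
`h` on `S`, such that for `i ≠ j` the image `(f i, f j)_* [U]` in `CH^n(S × S)` is a multiple of
`(h × S + S × h)^n`. (If `I` has at least two elements take `h` sufficiently ample, and for `U` the
intersection of general members of the linear system of the divisors in the class `∑ h_i` which are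
defined by symmetric tensors. This linear system has no base points and its morphism is finite, so
`U` is smooth and connected by the theorems of Bertini.) -/
def HasPermSections (C : TheoryData.{u, v, 0} 𝒱 ℚ) (n : ℕ) (𝒮 𝒰 : 𝒱.Obj → Prop) : Prop :=
  ∀ (S : 𝒱.Obj) (I : Type) [Finite I], 𝒮 S → ∃ (U : 𝒱.Obj) (f : I → (U ⟶ S))
    (ρ : Equiv.Perm I →* Aut U) (h : C.A S) (m c : ℚ), 𝒰 U ∧ C.Deg 1 h ∧ m ≠ 0 ∧
    (∀ i, C.down (f i) 1 = m • (1 : C.A S)) ∧ (∀ π i, (ρ π).inv ≫ f i = f (π i)) ∧
    ∀ i j, i ≠ j →
      C.down (Obj.lift (f i) (f j)) 1 = c • (C.up (fst S S) h + C.up (snd S S) h) ^ n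

/-- The class `𝒰 n` consists of varieties of dimension `n` and contains suitable complete
intersections of symmetric divisors in the powers of all varieties of dimension `n`. -/
def IsLarge (C : TheoryData.{u, v, 0} 𝒱 ℚ) (𝒰 : ℕ → 𝒱.Obj → Prop) : Prop :=
  ∀ n, (∀ X, 𝒰 n X → X.dim = n) ∧ HasPermSections C n (fun X => X.dim = n) (𝒰 n)

end Pool.Agent.TH629.CM.Th
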