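import Pool.Agent.TH629.CM.DefsK
import Pool.Agent.TH133.DefsAJ

/-!
# Lifting cohomologically trivial cycles to regular models: definitions
-/

open CategoryTheory AlgebraicGeometry

universe u v w

namespace Pool.Agent.TH629.CM.Th

open Pool.Agent.H914 Pool.Agent.H914.VarClass Pool.Agent.H914.VarClass.Obj Pool.Agent.W492.BB
  Pool.Agent.W550.Corr Pool.Agent.TH133

variable {k : Type u} [Field k] {𝒱 : VarClass k}

/-- Regular models and their Chow groups. In practice `k` is the algebraic closure of `ℚ`, and
`Model X` is the set of the regular schemes `𝒳`, proper and flat over the ring of integers of some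
number field `E` in `k`, with generic fibre `X_E` over `E` and an identification of `X_E ×_E k` with
`X`. -/
structure Models (C : TheoryData.{u, v, 0} 𝒱 ℚ) where
  /-- the regular models -/
  Model : 𝒱.Obj → Type
  /-- the Chow group of the model with rational coefficients (the sum over all codimensions) -/
  Ch : ∀ {X : 𝒱.Obj}, Model X → Type v
  /-- restriction to the generic fibre, followed by the injection into the rational Chow group of
  `X` over `k` -/
  res : ∀ {X : 𝒱.Obj} {𝒳 : Model X}, Ch 𝒳 → C.A X
  /-- the Gillet-Soule pairing `⟨c, w⟩`, the sum of the pairings of the components of `c` and `w` of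
  complementary codimensions; it is only used if `c` is cohomologically trivial on the generic fibre
  and `w` is supported in closed fibres -/
  pair : ∀ {X : 𝒱.Obj} {𝒳 : Model X}, Ch 𝒳 → Ch 𝒳 → ℝ

/-- The Chow groups with rational coefficients as a theory with an action of correspondences. -/
noncomputable def chowAct (C : TheoryData.{u, v, 0} 𝒱 ℚ) : Theory.{u, v, v} C where
  M X := C.A X
  act Γ x := C.act Γ x

variable {C : TheoryData.{u, v, 0} 𝒱 ℚ} (M : Models C) {X : 𝒱.Obj}

/-- The class `z` is defined over the number field of the model. -/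
def Models.Defined (𝒳 : M.Model X) (z : C.A X) : Prop :=
  ∃ c : M.Ch 𝒳, M.res c = z

/-- The class `z` has a lift to the model which is orthogonal to all cycles supported in closed
fibres. -/
def Models.Lifts (𝒳 : M.Model X) (z : C.A X) : Prop :=
  ∃ c : M.Ch 𝒳, M.res c = z ∧ ∀ w : M.Ch 𝒳, M.res w = 0 → M.pair c w = 0

/-- For some alteration `φ : X' → X` and some regular model of `X'` the class `φ^* z` has a lift
orthogonal to all cycles supported in closed fibres. -/
def Models.Liftable (z : C.A X) : Prop :=
  ∃ (X' : 𝒱.Obj) (φ : X' ⟶ X) (d : ℚ) (𝒳' : M.Model X'), X'.dim = X.dim ∧ d ≠ 0 ∧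
    C.down φ 1 = d • (1 : C.A X) ∧ M.Lifts 𝒳' (C.up φ z)

variable {K : Type w} [Field K] (H : WeilTheoryData.{u, v, w} C K)

/-- Known facts. The cohomologically trivial classes with an orthogonal lift to a given model form a
linear subspace (the pairing is bilinear). Transfer: if `z` is cohomologically trivial and has an
orthogonal lift to a model of `X`, and if `Γ_* z`, for a correspondence `Γ` from `X` to `Y`, is
defined over the number field of a model of `Y`, then `Γ_* z` has an orthogonal lift to this model
(projection formula, with an alteration of the product of the two models). Alterations: for any two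
classes there are an alteration `φ` and a regular model of its source such that the pull-backs of the
two classes are defined over the number field of the model (de Jong). -/
structure Models.IsGood : Prop where
  zero : ∀ {X : 𝒱.Obj} (𝒳 : M.Model X), M.Lifts 𝒳 0
  linear : ∀ {X : 𝒱.Obj} (𝒳 : M.Model X) (q : ℚ) (z z' : C.A X), H.cl z = 0 → H.cl z' = 0 →
    M.Lifts 𝒳 z → M.Lifts 𝒳 z' → M.Lifts 𝒳 (q • z + z')
  transfer : ∀ {X Y : 𝒱.Obj} (𝒳 : M.Model X) (𝒴 : M.Model Y) (Γ : C.A (X.prod Y)) (z : C.A X),
    H.cl z = 0 → M.Lifts 𝒳 z → M.Defined 𝒴 (C.act Γ z) → M.Lifts 𝒴 (C.act Γ z)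
  alteration : ∀ (X : 𝒱.Obj) (z z' : C.A X), ∃ (X' : 𝒱.Obj) (φ : X' ⟶ X) (d : ℚ)
    (𝒳' : M.Model X'), X'.dim = X.dim ∧ d ≠ 0 ∧ C.down φ 1 = d • (1 : C.A X) ∧
    M.Defined 𝒳' (C.up φ z) ∧ M.Defined 𝒳' (C.up φ z')

/-- The lifting statement in dimension `n` and codimension `m`: for all `X` of dimension `n` and all
regular models, all cohomologically trivial cycle classes of codimension `m` which are defined over
the number field of the model have a lift orthogonal to all cycles supported in closed fibres. -/
def LiftingHolds (m n : ℕ) : Prop :=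
  ∀ X : 𝒱.Obj, X.dim = n → ∀ (𝒳 : M.Model X) (z : C.A X), z ∈ homTriv H X m → M.Defined 𝒳 z →
    M.Lifts 𝒳 z

/-- The identity `a` holds in dimension `n` on the cohomologically trivial cycle classes of
codimension `m` modulo the liftable ones, for the varieties `U` in the class `𝒰`: for all actions of
the group `a.Q` on `U` in which the elements of `a.T` different from `1` act non-trivially, all values
of the variables in `CH^n(U × U)` and all cohomologically trivial `z` of codimension `m`, the value of
`a.p` on `z` is liftable. -/
def HoldsModuloLiftable (m : ℕ) (a : Ident) (n : ℕ) (𝒰 : 𝒱.Obj → Prop) : Prop :=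
  ∀ U : 𝒱.Obj, 𝒰 U → ∀ (φ : a.Q →* Aut U), (∀ g ∈ a.T, g ≠ 1 → φ g ≠ 1) →
    ∀ P : a.κ → C.A (U.prod U), (∀ j, C.Deg n (P j)) →
      ∀ z : C.A U, z ∈ homTriv H U m → M.Liftable (a.p.sum fun w q => q • wordAct (chowAct C) φ P w z)

end Pool.Agent.TH629.CM.Th
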