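import Pool.Agent.TH629.CM.DefsCyc

/-!
# Homologically trivial cycles on varieties without cohomology of small odd degree: definitions
-/

open CategoryTheory AlgebraicGeometry

universe u v w

namespace Pool.Agent.TH629.CM.Th

open Pool.Agent.H914 Pool.Agent.H914.VarClass Pool.Agent.H914.VarClass.Obj Pool.Agent.W492.BB
  Pool.Agent.W550.Corr Pool.Agent.TH133

variable {k : Type u} [Field k] {𝒱 : VarClass k} {C : TheoryData.{u, v, 0} 𝒱 ℚ} {K : Type w}
  [Field K] (H : WeilTheoryData.{u, v, w} C K)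

/-- The variety `X` has dimension `n` and `H^i(X) = 0` for all odd `i ≤ r`. -/
def NoOddCohomology (r n : ℕ) (X : 𝒱.Obj) : Prop :=
  X.dim = n ∧ ∀ j : ℕ, 2 * j + 1 ≤ r → ∀ x : H.A X, H.Deg (2 * j + 1) x → x = 0

/-- `CH^m(X)_hom ⊗ ℚ = 0` for all `X` in the class `𝒮`. -/
def HomVanishes (m : ℕ) (𝒮 : 𝒱.Obj → Prop) : Prop :=
  ∀ X : 𝒱.Obj, 𝒮 X → ∀ z ∈ homTriv H X m, z = 0

/-- The identity `a` holds in dimension `n` for `CH^m(U)_hom ⊗ ℚ`, `U` in the class `𝒰`. -/
def HoldsOnHom (m : ℕ) (a : Ident) (n : ℕ) (𝒰 : 𝒱.Obj → Prop) : Prop :=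
  HoldsOn (chow C) (fun X z => z ∈ homTriv H X m) a n 𝒰

/-- The class `𝒰 r n`, for `r < n`, consists of varieties `X` of dimension `n` with `H^i(X) = 0` for
all odd `i ≤ r`, and contains suitable complete intersections of symmetric divisors in the powers of
all these varieties (theorems of Bertini and Lefschetz, Kunneth formula). -/
def IsLargeOdd (𝒰 : ℕ → ℕ → 𝒱.Obj → Prop) : Prop :=
  ∀ r n, r < n → (∀ X, 𝒰 r n X → NoOddCohomology H r n X) ∧
    HasPermSections C n (NoOddCohomology H r n) (𝒰 r n)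

/-- A zero-cycle of degree zero on a variety `X` of dimension at least two with `H^1(X) = 0` comes
from one on a surface `S` with `H^1(S) = 0` (for example on a complete intersection `S ⊂ X`; theorems
of Bertini and Lefschetz). -/
def HasRegularSurfaces : Prop :=
  ∀ (n : ℕ) (X : 𝒱.Obj), 2 ≤ n → NoOddCohomology H 1 n X → ∀ z ∈ homTriv H X n,
    ∃ (S : 𝒱.Obj) (y : C.A S) (Φ : C.A (S.prod X)), NoOddCohomology H 1 2 S ∧
      y ∈ homTriv H S 2 ∧ z = C.act Φ y

end Pool.Agent.TH629.CM.Th
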