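import Pool.Agent.TH629.CM.DefsK

/-!
# Tate classes modulo algebraic classes: definitions
-/

open CategoryTheory AlgebraicGeometry

universe u v w

namespace Pool.Agent.TH629.CM.Th

open Pool.Agent.H914 Pool.Agent.H914.VarClass Pool.Agent.H914.VarClass.Obj Pool.Agent.W492.BB
  Pool.Agent.W550.Corr Pool.Agent.TH133

variable {k : Type u} [Field k] {𝒱 : VarClass k} {C : TheoryData.{u, v, 0} 𝒱 ℚ} {K : Type w}
  [Field K] (H : WeilTheoryData.{u, v, w} C K)

/-- The subspace of the cohomology spanned by the classes of algebraic cycles. -/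
def algSpan (X : 𝒱.Obj) : Submodule K (H.A X) := Submodule.span K (Set.range (H.cl (X := X)))

/-- A family of subspaces of cohomology classes. In practice `H X` is the `ℓ`-adic cohomology of
`X ×_k k^s`, and `𝒯 X = H^2(X ×_k k^s, ℚ_ℓ(1))^{G_k}`, the space of the Tate classes in degree two. -/
structure Classes where
  /-- the subspace for `X` -/
  T : ∀ X : 𝒱.Obj, Submodule K (H.A X)

variable {H} (𝒯 : Classes H)

/-- The classes are stable under algebraic correspondences of degree zero between varieties of the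
same dimension. -/
def Classes.IsStable : Prop :=
  ∀ (X Y : 𝒱.Obj), X.dim = Y.dim → ∀ Γ : C.A (X.prod Y), C.Deg X.dim Γ → ∀ t ∈ 𝒯.T X,
    H.act (H.cl Γ) t ∈ 𝒯.T Y

/-- For every class `t` on a variety `X` there are a surface `S` and a correspondence `Φ` from `X` to
`S` such that `Φ_* t` is a class in the family, and such that `t` is algebraic if `Φ_* t` is
algebraic. -/
def Classes.DetectedOnSurfaces : Prop :=
  ∀ (X : 𝒱.Obj), ∀ t ∈ 𝒯.T X, ∃ (S : 𝒱.Obj) (Φ : C.A (X.prod S)), S.dim = 2 ∧
    H.act (H.cl Φ) t ∈ 𝒯.T S ∧ (H.act (H.cl Φ) t ∈ algSpan H S → t ∈ algSpan H X)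

/-- All classes in the family on varieties of dimension `n` are algebraic (linear combinations, with
coefficients in `K`, of classes of algebraic cycles). -/
def Classes.AlgebraicIn (n : ℕ) : Prop :=
  ∀ X : 𝒱.Obj, X.dim = n → ∀ t ∈ 𝒯.T X, t ∈ algSpan H X

/-- The result of applying to the cohomology class `t` the word `g_0 v_1 g_1 v_2 ⋯ v_N g_N`, from the
left to the right. -/
noncomputable def wordCoh (H : WeilTheoryData.{u, v, w} C K) {U : 𝒱.Obj} {Q κ : Type} [Group Q]
    (φ : Q →* Aut U) (P : κ → C.A (U.prod U)) (w : List (Q × (κ × Bool)) × Q) (t : H.A U) : H.A U :=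
  H.act (H.cl (C.graph (φ w.2).hom))
    (w.1.foldl (fun a b => H.act (H.cl (lett C P b.2)) (H.act (H.cl (C.graph (φ b.1).hom)) a)) t)

/-- The identity `a` holds in dimension `n` modulo algebraic classes, for the varieties `U` in the
class `𝒰`: for all actions of the group `a.Q` on `U` in which the elements of `a.T` different from `1`
act non-trivially, all values of the variables in `CH^n(U × U)` and all classes `t` in the family, the
value of `a.p` on `t` is algebraic. -/
def Classes.HoldsModuloAlgebraic (a : Ident) (n : ℕ) (𝒰 : 𝒱.Obj → Prop) : Prop :=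
  ∀ U : 𝒱.Obj, 𝒰 U → ∀ (φ : a.Q →* Aut U), (∀ g ∈ a.T, g ≠ 1 → φ g ≠ 1) →
    ∀ P : a.κ → C.A (U.prod U), (∀ j, C.Deg n (P j)) →
      ∀ t ∈ 𝒯.T U, (a.p.sum fun w q => (q : K) • wordCoh H φ P w t) ∈ algSpan H U

end Pool.Agent.TH629.CM.Th
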