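import Pool.Agent.TH629.CM.Main

/-!
# Identities in infinitely many dimensions
-/

open CategoryTheory AlgebraicGeometry

universe u v w

namespace Pool.Agent.TH629.CM

open Pool.Agent.H914 Pool.Agent.H914.VarClass Pool.Agent.H914.VarClass.Obj Pool.Agent.W492.BB
  Pool.Agent.W550.Corr Pool.Agent.TH133

set_option linter.unusedSectionVars false

variable {k : Type u} [Field k] {𝒱 : VarClass k} {C : TheoryData.{u, v, 0} 𝒱 ℚ}
  [hC : IsChowProj C] {X Y Z W U S T : 𝒱.Obj}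

include hC

lemma comp_graph (Γ : C.A (X.prod Y)) (f : Y ⟶ Z) :
    C.comp Γ (C.graph f) = C.push (prodMap (𝟙 X) f) Γ := by
  rw [comp_eq_extR, extR_graph]

lemma tp_push_lift (f : X ⟶ Y) (z : C.A X) :
    tp C (C.push (Obj.lift (𝟙 X) f) z) = C.push (Obj.lift f (𝟙 X)) z := by
  rw [tp, pull_iso C (sw Y X) (sw X Y) sw_sw sw_sw, ← C.push_comp]
  have e1 : Obj.lift (𝟙 X) f ≫ sw X Y = Obj.lift f (𝟙 X) := by
    apply prod_ext <;> simp [sw, comp_lift]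
  rw [e1]

lemma tp_dg' : tp C (dg C X) = dg C X := tp_push_lift (𝟙 X) 1

/-- The pull-back under the projection `X × V → X` has a left inverse. -/
lemma exists_retraction (X V : 𝒱.Obj) :
    ∃ Θ : C.A ((X.prod V).prod X), C.comp (C.cograph (fst X V)) Θ = dg C X := by
  obtain ⟨e, -, he, -⟩ := exists_deg_one C V
  refine ⟨C.push (Obj.lift (𝟙 _) (fst X V)) (C.pull (snd X V) e), ?_⟩
  have h1 : tp C (C.comp (C.cograph (fst X V))
      (C.push (Obj.lift (𝟙 _) (fst X V)) (C.pull (snd X V) e))) = dg C X := by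
    rw [tp_comp C (ch_comm C), tp_cograph, tp_push_lift, comp_graph, ← C.push_comp]
    have e1 : Obj.lift (fst X V) (𝟙 (X.prod V)) ≫ prodMap (𝟙 X) (fst X V) =
        fst X V ≫ Obj.lift (𝟙 X) (𝟙 X) := by
      apply prod_ext <;> simp [comp_lift]
    rw [e1, C.push_comp, he]
    rfl
  rw [← tp_tp C (C.comp _ _), h1, tp_dg']

/-- Vanishing for `X × V` implies vanishing for `X`. -/
lemma vanishing_of_prod (D : CorrMod.{u, v, w} C) (X V : 𝒱.Obj)
    (h : ∀ y : D.M (X.prod V), y = 0) (x : D.M X) : x = 0 := by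
  obtain ⟨Θ, hΘ⟩ := exists_retraction (C := C) X V
  rw [← D.act_dg x, ← hΘ, D.act_comp, h (D.act (C.cograph (fst X V)) x), map_zero]

/-- The vanishing for all varieties is equivalent to identities in infinitely many dimensions. -/
theorem vanishing_iff_infinitely_many (D : CorrMod.{u, v, w} C)
    (hdec : ∀ (X : 𝒱.Obj) (a b : C.A X) (x : D.M X), D.act (C.ext a b) x = 0)
    (hdim : ∀ e : ℕ, ∃ V : 𝒱.Obj, V.dim = e) (𝒰 : ℕ → 𝒱.Obj → Prop)
    (h𝒰 : ∀ n X, 𝒰 n X → X.dim = n)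
    (hsec : ∀ n, HasPermSections C n (fun X => X.dim = n) (𝒰 n)) {Q κ : ℕ → Type}
    [∀ n, Group (Q n)] [∀ n, Group.ResiduallyFinite (Q n)] (T : ∀ n, Finset (Q n))
    (p : ∀ n, (List (Q n × (κ n × Bool)) × Q n) →₀ ℚ) (hp : ∀ n, p n ≠ 0) :
    (∀ n, (∀ X : 𝒱.Obj, X.dim = n → ∀ x : D.M X, x = 0) ↔
      IsLaw D n (fun _ => ⊤) (𝒰 n) (T n) (p n)) ∧
    ((∀ (X : 𝒱.Obj) (x : D.M X), x = 0) ↔
      ∀ N : ℕ, ∃ n, N ≤ n ∧ IsLaw D n (fun _ => ⊤) (𝒰 n) (T n) (p n)) := by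
  have h1 : ∀ n, (∀ X : 𝒱.Obj, X.dim = n → ∀ x : D.M X, x = 0) ↔
      IsLaw D n (fun _ => ⊤) (𝒰 n) (T n) (p n) := by
    intro n
    rw [← vanishing_iff_isLaw D (F := fun _ => ⊤) (fun _ _ _ _ _ _ _ _ => Submodule.mem_top)
      (fun X _ a b x _ => hdec X a b x) (fun _ h => h) (h𝒰 n) (hsec n) (T n) (hp n)]
    exact ⟨fun h X hX x _ => h X hX x, fun h X hX x => h X hX x Submodule.mem_top⟩
  refine ⟨h1, fun h N => ⟨N, le_rfl, (h1 N).1 fun X _ x => h X x⟩, fun h X x => ?_⟩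
  obtain ⟨n, hn, hl⟩ := h X.dim
  obtain ⟨V, hV⟩ := hdim (n - X.dim)
  refine vanishing_of_prod D X V (fun y => (h1 n).2 hl (X.prod V) ?_ y) x
  rw [dim_prod, hV]
  omega

end Pool.Agent.TH629.CM
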