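import Pool.Agent.TH629.CM.Dim
import Pool.Agent.TH629.CM.DefsK

/-!
# Theories with an action of correspondences: the final statements
-/

open CategoryTheory AlgebraicGeometry

universe u v w

namespace Pool.Agent.TH629.CM.Th

open Pool.Agent.H914 Pool.Agent.H914.VarClass Pool.Agent.H914.VarClass.Obj Pool.Agent.W492.BB
  Pool.Agent.W550.Corr Pool.Agent.TH133

variable {k : Type u} [Field k] {𝒱 : VarClass k} {C : TheoryData.{u, v, 0} 𝒱 ℚ}

/-- The theory with bundled bilinear maps. -/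
noncomputable def toL (D : Theory.{u, v, w} C) (hD : IsAction D) : CorrMod.{u, v, w} C where
  M := D.M
  act := LinearMap.mk₂ ℚ D.act hD.bilinear.add_act hD.bilinear.smul_act hD.bilinear.act_add
    (fun q Γ x => by
      have h := map_rat_smul (AddMonoidHom.mk' (D.act Γ) (hD.bilinear.act_add Γ)) q x
      exact h)
  act_comp := hD.act_comp
  act_dg := hD.act_dg

lemma holdsOn_iff (D : Theory.{u, v, w} C) (hD : IsAction D) (F : ∀ X : 𝒱.Obj, Submodule ℚ (D.M X))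
    (a : Ident) (n : ℕ) (𝒰 : 𝒱.Obj → Prop) :
    HoldsOn D (fun X x => x ∈ F X) a n 𝒰 ↔ IsLaw (toL D hD) n F 𝒰 a.T a.p :=
  Iff.rfl

lemma holds_iff (D : Theory.{u, v, w} C) (hD : IsAction D) (a : Ident) (n : ℕ)
    (𝒰 : 𝒱.Obj → Prop) :
    Holds D a n 𝒰 ↔ IsLaw (toL D hD) n (fun _ => ⊤) 𝒰 a.T a.p :=
  ⟨fun h U hU φ hφ P hP x _ => h U hU φ hφ P hP x trivial,
    fun h U hU φ hφ P hP x _ => h U hU φ hφ P hP x Submodule.mem_top⟩

variable [hC : IsChowProj C]

include hC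

/-- The vanishing for all varieties is equivalent to identities in infinitely many dimensions. -/
theorem vanishing_iff (D : Theory.{u, v, w} C) (hD : IsAction D) (hdec : KillsDecomposables D)
    (hdim : ∀ e : ℕ, ∃ V : 𝒱.Obj, V.dim = e) (𝒰 : ℕ → 𝒱.Obj → Prop) (h𝒰 : IsLarge C 𝒰)
    (a : ℕ → Ident) :
    (∀ n, VanishesIn D n ↔ Holds D (a n) n (𝒰 n)) ∧
      ((∀ n, VanishesIn D n) ↔ ∀ N : ℕ, ∃ n, N ≤ n ∧ Holds D (a n) n (𝒰 n)) := by
  have h := vanishing_iff_infinitely_many (toL D hD) hdec hdim 𝒰 (fun n => (h𝒰 n).1)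
    (fun n => (h𝒰 n).2) (Q := fun n => (a n).Q) (κ := fun n => (a n).κ) (fun n => (a n).T)
    (fun n => (a n).p) (fun n => (a n).ne_zero)
  refine ⟨fun n => (h.1 n).trans (holds_iff D hD (a n) n (𝒰 n)).symm, ?_⟩
  have h2 : (∀ n, VanishesIn D n) ↔ ∀ (X : 𝒱.Obj) (x : (toL D hD).M X), x = 0 :=
    ⟨fun h1 X x => h1 _ X rfl x, fun h1 n X _ x => h1 X x⟩
  rw [h2, h.2]
  refine forall_congr' fun N => exists_congr fun n => and_congr Iff.rfl ?_
  exact (holds_iff D hD (a n) n (𝒰 n)).symm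

end Pool.Agent.TH629.CM.Th
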