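import Pool.Agent.TH629.CM.Odd
import Pool.Agent.TH629.CM.DefsLift

/-!
# Identities modulo the liftable classes
-/

open CategoryTheory AlgebraicGeometry

universe u v w

namespace Pool.Agent.TH629.CM.Th

open Pool.Agent.H914 Pool.Agent.H914.VarClass Pool.Agent.H914.VarClass.Obj Pool.Agent.W492.BB
  Pool.Agent.W550.Corr Pool.Agent.TH133

set_option linter.unusedSectionVars false

variable {k : Type u} [Field k] {𝒱 : VarClass k} {C : TheoryData.{u, v, 0} 𝒱 ℚ}
  [hC : IsChowProj C] {X Y Z W : 𝒱.Obj} {K : Type w} [Field K] {H : WeilTheoryData.{u, v, w} C K}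
  [hH : IsWeilProj H] {M : Models C}

include hC hH

omit hH in
lemma up_act (φ : X ⟶ Y) (z : C.A Y) : C.up φ z = C.act (C.cograph φ) z :=
  (C.act_cograph φ z).symm

/-- Orthogonal lifts under correspondences, up to alterations. -/
lemma lifts_of_liftable (hM : M.IsGood H) {z : C.A X} (hz : H.cl z = 0) (hl : M.Liftable z)
    (𝒴 : M.Model Y) (Γ : C.A (X.prod Y)) (hd : M.Defined 𝒴 (C.act Γ z)) :
    M.Lifts 𝒴 (C.act Γ z) := by
  obtain ⟨X', φ, d, 𝒳', -, hd0, hφ, hL⟩ := hl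
  have h1 : C.act (d⁻¹ • C.comp (C.graph φ) Γ) (C.up φ z) = C.act Γ z := by
    have h2 : C.act (d⁻¹ • C.comp (C.graph φ) Γ) (C.up φ z) =
        d⁻¹ • C.act (C.comp (C.graph φ) Γ) (C.up φ z) :=
      act_smul_left (cycles C) d⁻¹ (C.comp (C.graph φ) Γ) (C.up φ z)
    have h3 : C.act (C.graph φ) (C.act (C.cograph φ) z) = d • z :=
      push_pull_of (cycles C) hφ z
    rw [← up_act] at h3
    rw [h2, C.act_comp, h3]
    have h4 : C.act Γ (d • z) = d • C.act Γ z := act_map_smul C Γ d z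
    rw [h4, smul_smul, inv_mul_cancel₀ hd0, one_smul]
  have hz' : H.cl (C.up φ z) = 0 := by
    rw [up_act]
    exact cl_act_zero hz
  rw [← h1] at hd ⊢
  exact hM.transfer 𝒳' 𝒴 _ _ hz' hL hd

lemma liftable_act (hM : M.IsGood H) {z : C.A X} (hz : H.cl z = 0) (hl : M.Liftable z)
    (Γ : C.A (X.prod Y)) : M.Liftable (C.act Γ z) := by
  obtain ⟨Y', ψ, d, 𝒴', h1, h2, h3, h4, -⟩ := hM.alteration Y (C.act Γ z) 0
  refine ⟨Y', ψ, d, 𝒴', h1, h2, h3, ?_⟩
  have h5 : C.up ψ (C.act Γ z) = C.act (C.comp Γ (C.cograph ψ)) z := by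
    rw [C.act_comp, up_act]
  rw [h5] at h4 ⊢
  exact lifts_of_liftable hM hz hl 𝒴' _ h4

lemma lifts_add (hM : M.IsGood H) {𝒳 : M.Model X} {z z' : C.A X} (hz : H.cl z = 0)
    (hz' : H.cl z' = 0) (h : M.Lifts 𝒳 z) (h' : M.Lifts 𝒳 z') : M.Lifts 𝒳 (z + z') := by
  have h1 := hM.linear 𝒳 1 z z' hz hz' h h'
  rwa [one_smul] at h1

lemma lifts_smul (hM : M.IsGood H) {𝒳 : M.Model X} {z : C.A X} (hz : H.cl z = 0) (q : ℚ)
    (h : M.Lifts 𝒳 z) : M.Lifts 𝒳 (q • z) := by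
  have h1 := hM.linear 𝒳 q z 0 hz (map_zero _) h (hM.zero 𝒳)
  rwa [add_zero] at h1

lemma liftable_add (hM : M.IsGood H) {z z' : C.A X} (hz : H.cl z = 0) (hz' : H.cl z' = 0)
    (h : M.Liftable z) (h' : M.Liftable z') : M.Liftable (z + z') := by
  obtain ⟨X', φ, d, 𝒳', h1, h2, h3, h4, h5⟩ := hM.alteration X z z'
  refine ⟨X', φ, d, 𝒳', h1, h2, h3, ?_⟩
  have e : C.up φ (z + z') = C.up φ z + C.up φ z' := map_add _ _ _
  rw [e]
  have h6 : M.Lifts 𝒳' (C.up φ z) := by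
    rw [up_act] at h4 ⊢
    exact lifts_of_liftable hM hz h 𝒳' _ h4
  have h7 : M.Lifts 𝒳' (C.up φ z') := by
    rw [up_act] at h5 ⊢
    exact lifts_of_liftable hM hz' h' 𝒳' _ h5
  refine lifts_add hM ?_ ?_ h6 h7
  · rw [up_act]
    exact cl_act_zero hz
  · rw [up_act]
    exact cl_act_zero hz'

lemma liftable_smul (hM : M.IsGood H) {z : C.A X} (hz : H.cl z = 0) (q : ℚ)
    (h : M.Liftable z) : M.Liftable (q • z) := by
  obtain ⟨X', φ, d, 𝒳', h1, h2, h3, h4⟩ := h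
  refine ⟨X', φ, d, 𝒳', h1, h2, h3, ?_⟩
  have e : C.up φ (q • z) = q • C.up φ z := map_smul _ _ _
  rw [e]
  refine lifts_smul hM ?_ q h4
  rw [up_act]
  exact cl_act_zero hz

lemma liftable_zero (hM : M.IsGood H) (X : 𝒱.Obj) : M.Liftable (0 : C.A X) := by
  obtain ⟨X', φ, d, 𝒳', h1, h2, h3, -, -⟩ := hM.alteration X 0 0
  refine ⟨X', φ, d, 𝒳', h1, h2, h3, ?_⟩
  have e : C.up φ (0 : C.A X) = 0 := map_zero _
  rw [e]
  exact hM.zero 𝒳'

/-- The cohomologically trivial liftable classes. -/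
def liftSub (hM : M.IsGood H) (X : 𝒱.Obj) : Submodule ℚ (C.A X) where
  carrier := {z | H.cl z = 0 ∧ M.Liftable z}
  zero_mem' := ⟨map_zero _, liftable_zero hM X⟩
  add_mem' := fun {a b} ha hb => ⟨by rw [map_add, ha.1, hb.1, add_zero],
    liftable_add hM ha.1 hb.1 ha.2 hb.2⟩
  smul_mem' := fun q z hz => ⟨by
    have h : q • z ∈ Submodule.restrictScalars ℚ (RingHom.ker (H.cl (X := X))) :=
      Submodule.smul_mem _ q (by exact hz.1)
    exact h, liftable_smul hM hz.1 q hz.2⟩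

lemma liftSub_act (hM : M.IsGood H) (Γ : C.A (X.prod Y)) :
    liftSub hM X ≤ (liftSub hM Y).comap (actB C Γ) := by
  intro z hz
  exact ⟨cl_act_zero hz.1, liftable_act hM hz.1 hz.2 Γ⟩

/-- The Chow groups modulo the liftable classes. -/
noncomputable def quot (hM : M.IsGood H) : CorrMod.{u, v, v} C where
  M X := C.A X ⧸ liftSub hM X
  act {X Y} :=
    { toFun := fun Γ => Submodule.mapQ (liftSub hM X) (liftSub hM Y) (actB C Γ)
        (liftSub_act hM Γ)
      map_add' := fun Γ Δ => by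
        apply Submodule.linearMap_qext
        ext x
        have h : C.act (Γ + Δ) x = C.act Γ x + C.act Δ x := C.act_add Γ Δ x
        exact congrArg (liftSub hM Y).mkQ h
      map_smul' := fun q Γ => by
        apply Submodule.linearMap_qext
        ext x
        have h : C.act (q • Γ) x = q • C.act Γ x := act_smul_left (cycles C) q Γ x
        exact congrArg (liftSub hM Y).mkQ h }
  act_comp {X Y Z} Γ Δ x := by
    obtain ⟨x, rfl⟩ := Submodule.mkQ_surjective _ x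
    exact congrArg (liftSub hM Z).mkQ (C.act_comp Γ Δ x)
  act_dg {X} x := by
    obtain ⟨x, rfl⟩ := Submodule.mkQ_surjective _ x
    exact congrArg (liftSub hM X).mkQ (act_dg C x)

/-- The projection. -/
noncomputable def toQ (hM : M.IsGood H) (X : 𝒱.Obj) : C.A X →ₗ[ℚ] (quot hM).M X :=
  (liftSub hM X).mkQ

lemma toQ_eq_zero (hM : M.IsGood H) {z : C.A X} : toQ hM X z = 0 ↔ z ∈ liftSub hM X :=
  Submodule.Quotient.mk_eq_zero _

lemma quot_act (hM : M.IsGood H) (Γ : C.A (X.prod Y)) (z : C.A X) :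
    (quot hM).act Γ (toQ hM X z) = toQ hM Y (C.act Γ z) := rfl

lemma quot_wordAct (hM : M.IsGood H) {U : 𝒱.Obj} {Q κ : Type} [Group Q] (φ : Q →* Aut U)
    (P : κ → C.A (U.prod U)) (w : List (Q × (κ × Bool)) × Q) (z : C.A U) :
    CM.wordAct (quot hM) φ P w (toQ hM U z) =
      toQ hM U (wordAct (chowAct C) φ P w z) := by
  obtain ⟨l, g⟩ := w
  unfold CM.wordAct wordAct
  have h : ∀ z : C.A U, l.foldl (fun a b => (quot hM).act (CM.lett C P b.2)
      ((quot hM).act (C.graph (φ b.1).hom) a)) (toQ hM U z) =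
      toQ hM U (l.foldl (fun a b => (chowAct C).act (lett C P b.2)
        ((chowAct C).act (C.graph (φ b.1).hom) a)) z) := by
    induction l with
    | nil =>
      intro z
      rfl
    | cons b l ih =>
      intro z
      exact ih _
  exact congrArg _ (h z)

/-- The family of the images of the cohomologically trivial cycle classes. -/
noncomputable def homQ (hM : M.IsGood H) (m : ℕ) (X : 𝒱.Obj) :
    Submodule ℚ ((quot hM).M X) :=
  (homTriv H X m).map (toQ hM X)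

lemma liftingHolds_iff (hM : M.IsGood H) (m n : ℕ) :
    LiftingHolds M H m n ↔ ∀ X : 𝒱.Obj, X.dim = n → ∀ x ∈ homQ hM m X, x = 0 := by
  constructor
  · rintro h X hX _ ⟨z, hz, rfl⟩
    obtain ⟨X', φ, d, 𝒳', h1, h2, h3, h4, -⟩ := hM.alteration X z 0
    refine (toQ_eq_zero hM).2 ⟨hz.2, X', φ, d, 𝒳', h1, h2, h3, ?_⟩
    refine h X' (h1.trans hX) 𝒳' _ ?_ h4
    rw [up_act]
    refine homTriv_act (n := X.dim) rfl ?_ hz
    exact cograph_mem (C := C) φ
  · intro h X hX 𝒳 z hz hd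
    have h1 : z ∈ liftSub hM X := (toQ_eq_zero hM).1 (h X hX _ ⟨z, hz, rfl⟩)
    have h2 := lifts_of_liftable hM h1.1 h1.2 𝒳 (dg C X) (by rw [act_dg]; exact hd)
    rwa [act_dg] at h2

lemma cl_sum_word {m : ℕ} {U : 𝒱.Obj} {Q κ : Type} [Group Q] (φ : Q →* Aut U)
    (P : κ → C.A (U.prod U)) (p : (List (Q × (κ × Bool)) × Q) →₀ ℚ) {z : C.A U}
    (hz : z ∈ homTriv H U m) :
    H.cl (p.sum fun w q => q • wordAct (chowAct C) φ P w z) = 0 := by
  have h1 : ∀ w : List (Q × (κ × Bool)) × Q, H.cl (wordAct (chowAct C) φ P w z) = 0 := by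
    rintro ⟨l, g⟩
    have h2 : ∀ z : C.A U, H.cl z = 0 → H.cl (l.foldl (fun a b => (chowAct C).act (lett C P b.2)
        ((chowAct C).act (C.graph (φ b.1).hom) a)) z) = 0 := by
      induction l with
      | nil => exact fun z hz => hz
      | cons b l ih =>
        intro z hz
        exact ih _ (cl_act_zero (cl_act_zero hz))
    exact cl_act_zero (h2 z hz.2)
  have h3 : (p.sum fun w q => q • wordAct (chowAct C) φ P w z) ∈
      Submodule.restrictScalars ℚ (RingHom.ker (H.cl (X := U))) :=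
    Submodule.sum_mem _ fun w _ => Submodule.smul_mem _ _ (h1 w)
  exact h3

lemma isLaw_quot_iff (hM : M.IsGood H) (m n : ℕ) (a : Ident) (𝒰 : 𝒱.Obj → Prop) :
    IsLaw (quot hM) n (homQ hM m) 𝒰 a.T a.p ↔ HoldsModuloLiftable M H m a n 𝒰 := by
  have key : ∀ (U : 𝒱.Obj) (φ : a.Q →* Aut U) (P : a.κ → C.A (U.prod U)) (z : C.A U),
      (a.p.sum fun w q => q • CM.wordAct (quot hM) φ P w (toQ hM U z)) =
        toQ hM U (a.p.sum fun w q => q • wordAct (chowAct C) φ P w z) := by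
    intro U φ P z
    classical
    have h0 : ∀ v : (List (a.Q × (a.κ × Bool)) × a.Q) → C.A U,
        (∀ w, v w = wordAct (chowAct C) φ P w z) → ∀ s : Finset (List (a.Q × (a.κ × Bool)) × a.Q),
        (∑ w ∈ s, a.p w • CM.wordAct (quot hM) φ P w (toQ hM U z)) =
          toQ hM U (∑ w ∈ s, a.p w • v w) := by
      intro v hv s
      rw [map_sum]
      refine Finset.sum_congr rfl fun w _ => ?_
      rw [quot_wordAct, map_smul]
      exact congrArg (fun y => a.p w • toQ hM U y) (hv w).symm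
    exact h0 _ (fun w => rfl) a.p.support
  constructor
  · intro h U hU φ hφ P hP z hz
    have h1 := h U hU φ hφ P hP _ ⟨z, hz, rfl⟩
    rw [key] at h1
    exact ((toQ_eq_zero hM).1 h1).2
  · rintro h U hU φ hφ P hP _ ⟨z, hz, rfl⟩
    rw [key]
    exact (toQ_eq_zero hM).2 ⟨cl_sum_word φ P a.p hz, h U hU φ hφ P hP z hz⟩

/-- The lifting statement in dimension `n` is equivalent to each single identity. -/
theorem lifting_iff (hM : M.IsGood H) (m n : ℕ) (𝒰 : 𝒱.Obj → Prop)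
    (h𝒰 : ∀ X, 𝒰 X → X.dim = n) (hsec : HasPermSections C n (fun X => X.dim = n) 𝒰)
    (a : Ident) : LiftingHolds M H m n ↔ HoldsModuloLiftable M H m a n 𝒰 := by
  rw [liftingHolds_iff hM, ← isLaw_quot_iff hM]
  refine vanishing_iff_isLaw (quot hM) (F := homQ hM m) (n := n) ?_ ?_
    (𝒮 := fun X => X.dim = n) (𝒰 := 𝒰) (fun _ h => h) h𝒰 hsec a.T a.ne_zero
  · rintro X Y hX hY Γ hΓ _ ⟨z, hz, rfl⟩
    exact ⟨C.act Γ z, homTriv_act hX hΓ hz, rfl⟩
  · rintro X hX b c _ ⟨z, hz, rfl⟩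
    have h1 := isReduced_cycles (C := C) (F := fun X => homTriv H X m) (n := n)
      (fun X _ x hx a => hasDegree_mul (H := H) (m := m) hx a) X hX b c z hz
    have h2 : C.act (C.ext b c) z = 0 := h1
    rw [quot_act, h2, map_zero]

/-- It is enough to have an identity in infinitely many dimensions. -/
theorem lifting_all_iff (hM : M.IsGood H) (m : ℕ) (hdim : ∀ e : ℕ, ∃ V : 𝒱.Obj, V.dim = e)
    (𝒰 : ℕ → 𝒱.Obj → Prop) (h𝒰 : IsLarge C 𝒰) (a : ℕ → Ident) :
    (∀ n, LiftingHolds M H m n) ↔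
      ∀ N : ℕ, ∃ n, N ≤ n ∧ HoldsModuloLiftable M H m (a n) n (𝒰 n) := by
  refine ⟨fun h N => ⟨N, le_rfl, (lifting_iff hM m N _ (h𝒰 N).1 (h𝒰 N).2 (a N)).1 (h N)⟩,
    fun h n => (liftingHolds_iff hM m n).2 ?_⟩
  rintro X hX _ ⟨z, hz, rfl⟩
  obtain ⟨n', hn, hl⟩ := h X.dim
  obtain ⟨V, hV⟩ := hdim (n' - X.dim)
  obtain ⟨Θ, hΘ⟩ := exists_retraction (C := C) X V
  have h2 : C.act (C.cograph (fst X V)) z ∈ homTriv H (X.prod V) m :=
    homTriv_act (n := X.dim) rfl (cograph_mem (C := C) (fst X V)) hz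
  have h3 := (liftingHolds_iff hM m n').1
    ((lifting_iff hM m n' _ (h𝒰 n').1 (h𝒰 n').2 (a n')).2 hl) (X.prod V)
    (by rw [dim_prod, hV]; omega) _ ⟨_, h2, rfl⟩
  have h4 := (quot hM).act_dg (toQ hM X z)
  rw [← hΘ, (quot hM).act_comp, quot_act, h3, map_zero] at h4
  exact h4.symm

/-- The lifting statement for direct summands of motives. -/
theorem lifts_of_summand (hM : M.IsGood H) {r : ℕ} {Y : Fin r → 𝒱.Obj}
    (a : ∀ i, C.A (X.prod (Y i))) (b : ∀ i, C.A ((Y i).prod X))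
    (hab : ∑ i, C.comp (a i) (b i) = dg C X)
    (hY : ∀ (i : Fin r) (z : C.A (Y i)), H.cl z = 0 → M.Liftable z) (𝒳 : M.Model X)
    {z : C.A X} (hz : H.cl z = 0) (hd : M.Defined 𝒳 z) : M.Lifts 𝒳 z := by
  have h1 : ∑ i, C.act (C.comp (a i) (b i)) z = z := by
    have h2 : C.act (∑ i, C.comp (a i) (b i)) z = ∑ i, C.act (C.comp (a i) (b i)) z :=
      act_sum_left (cycles C) Finset.univ (fun i => C.comp (a i) (b i)) z
    rw [← h2, hab, act_dg]
  have h3 : ∑ i, C.act (C.comp (a i) (b i)) z ∈ liftSub hM X := by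
    refine Submodule.sum_mem _ fun i _ => ⟨cl_act_zero hz, ?_⟩
    rw [C.act_comp]
    exact liftable_act hM (cl_act_zero hz) (hY i _ (cl_act_zero hz)) (b i)
  rw [h1] at h3
  have h4 := lifts_of_liftable hM h3.1 h3.2 𝒳 (dg C X) (by rw [act_dg]; exact hd)
  rwa [act_dg] at h4

end Pool.Agent.TH629.CM.Th
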