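import Pool.Agent.TH133.Sq
import Pool.Agent.TH629.CM.Defs
import Pool.Agent.TH629.BC.RFSep
import Mathlib.LinearAlgebra.Dual.Lemmas
import Mathlib.Algebra.Polynomial.Roots

/-!
# Identities for the action of correspondences and automorphisms on theories with correspondences
-/

open CategoryTheory AlgebraicGeometry

universe u v w

namespace Pool.Agent.TH629.CM

open Pool.Agent.H914 Pool.Agent.H914.VarClass Pool.Agent.H914.VarClass.Obj Pool.Agent.W492.BB
  Pool.Agent.W550.Corr Pool.Agent.TH133 Pool.Agent.TH629.BC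

set_option linter.unusedSectionVars false

variable {k : Type u} [Field k] {𝒱 : VarClass k} {C : TheoryData.{u, v, 0} 𝒱 ℚ}
  [hC : IsChowProj C] {X Y Z W U S T : 𝒱.Obj} (D : CorrMod.{u, v, w} C)

lemma act_smul_left (q : ℚ) (Γ : C.A (X.prod Y)) (a : D.M X) :
    D.act (q • Γ) a = q • D.act Γ a := by
  rw [map_smul]
  rfl

lemma act_add_left (Γ Δ : C.A (X.prod Y)) (a : D.M X) :
    D.act (Γ + Δ) a = D.act Γ a + D.act Δ a := by
  rw [map_add]
  rfl

lemma act_zero_left (a : D.M X) : D.act (0 : C.A (X.prod Y)) a = 0 := by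
  rw [map_zero]
  rfl

lemma act_sum_left {ι : Type*} (s : Finset ι) (Γ : ι → C.A (X.prod Y)) (a : D.M X) :
    D.act (∑ i ∈ s, Γ i) a = ∑ i ∈ s, D.act (Γ i) a := by
  rw [map_sum, LinearMap.sum_apply]

include hC

/-- The push-forward of a pull-back. -/
lemma push_pull_of {f : U ⟶ S} {m : ℚ} (hf : C.push f 1 = m • (1 : C.A S)) (y : D.M S) :
    D.act (C.graph f) (D.act (C.cograph f) y) = m • y := by
  have h1 : C.comp (C.cograph f) (C.graph f) = m • dg C S := by
    rw [cograph_comp_graph]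
    have e1 : Obj.lift f f = f ≫ Obj.lift (𝟙 S) (𝟙 S) := by
      rw [comp_lift, Category.comp_id]
    rw [e1, C.push_comp, hf, map_smul]
    rfl
  rw [← D.act_comp, h1, act_smul_left, D.act_dg]

/-- Automorphisms and pull-backs. -/
lemma graph_pull (g : Aut U) (f : U ⟶ S) (y : D.M S) :
    D.act (C.graph g.hom) (D.act (C.cograph f) y) = D.act (C.cograph (g.inv ≫ f)) y := by
  have h1 : C.comp (C.cograph f) (C.graph g.hom) = C.cograph (g.inv ≫ f) := by
    rw [cograph_comp_graph]
    have e1 : Obj.lift f g.hom = g.hom ≫ Obj.lift (g.inv ≫ f) (𝟙 U) := by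
      have e0 : g.hom ≫ g.inv ≫ f = f := Iso.hom_inv_id_assoc (show U ≅ U from g) f
      rw [comp_lift, Category.comp_id, e0]
    have e2 : C.push g.hom 1 = 1 := hC.push_one g.hom g.inv g.hom_inv_id g.inv_hom_id
    rw [e1, C.push_comp, e2]
    rfl
  rw [← D.act_comp, h1]

/-- Powers of `h × S + S × h` act as zero. -/
lemma act_pow {n : ℕ} {F : ∀ X : 𝒱.Obj, Submodule ℚ (D.M X)} (hF : IsReduced D n F)
    (hS : S.dim = n) (h : C.A S) (N : ℕ) {x : D.M S} (hx : x ∈ F S) :
    D.act ((C.pull (fst S S) h + C.pull (snd S S) h) ^ N) x = 0 := by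
  have h1 : Commute (C.pull (fst S S) h) (C.pull (snd S S) h) := ch_comm C _ _
  rw [h1.add_pow, act_sum_left]
  refine Finset.sum_eq_zero fun m _ => ?_
  have h2 : C.pull (fst S S) h ^ m * C.pull (snd S S) h ^ (N - m) * (N.choose m : C.A (S.prod S)) =
      C.ext (h ^ m) (h ^ (N - m) * (N.choose m : C.A S)) := by
    rw [TheoryData.ext, map_pow, map_mul, map_pow, map_natCast, mul_assoc]
  rw [h2]
  exact hF S hS _ _ x hx

/-- Orthogonality of the projections of a complete intersection. -/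
lemma orth {n : ℕ} {F : ∀ X : 𝒱.Obj, Submodule ℚ (D.M X)} (hF : IsReduced D n F)
    {f g : U ⟶ S} (hS : S.dim = n) {h : C.A S} {c : ℚ}
    (hUc : C.push (Obj.lift f g) 1 = c • (C.pull (fst S S) h + C.pull (snd S S) h) ^ n) {x : D.M S}
    (hx : x ∈ F S) : D.act (C.graph g) (D.act (C.cograph f) x) = 0 := by
  rw [← D.act_comp, cograph_comp_graph, hUc, act_smul_left, act_pow D hF hS h n hx, smul_zero]

omit hC in
/-- The correspondence `g^* f_*`. -/
noncomputable def sand (C : TheoryData.{u, v, 0} 𝒱 ℚ) {U S : 𝒱.Obj} (f g : U ⟶ S) :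
    C.A (U.prod U) :=
  C.comp (C.graph f) (C.cograph g)

lemma act_sand (f g : U ⟶ S) (y : D.M U) :
    D.act (sand C f g) y = D.act (C.cograph g) (D.act (C.graph f) y) := by
  rw [sand, D.act_comp]

lemma sand_deg {n : ℕ} (f g : U ⟶ S) (hU : U.dim = n) (hS : S.dim = n) :
    C.Deg n (sand C f g) := by
  have h2 : C.graph f ∈ C.gr (U.prod S) (U.dim + 0) := by
    have := graph_mem (C := C) f
    rwa [hS, ← hU, ← add_zero ((U.dim : ℕ) : ℤ)] at this
  have h4 : C.cograph g ∈ C.gr (S.prod U) (S.dim + 0) := by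
    rw [add_zero]; exact cograph_mem g
  have h5 := comp_mem C h2 h4
  rw [hU, add_zero, add_zero] at h5
  exact h5

lemma tp_sand (f g : U ⟶ S) : tp C (sand C f g) = sand C g f := by
  rw [sand, tp_comp C (ch_comm C), tp_graph, tp_cograph, sand]

omit hC in
/-- Homogeneous components. -/
lemma homog {M ν : Type*} [AddCommGroup M] [Module ℚ M] (s : Finset ν) (a : ν → ℚ) (d : ν → ℕ)
    (m : ν → M) (h : ∀ t : ℚ, ∑ w ∈ s, (a w * t ^ d w) • m w = 0) (N : ℕ) :
    ∑ w ∈ s with d w = N, a w • m w = 0 := by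
  rw [← Module.forall_dual_apply_eq_zero_iff ℚ]
  intro φ
  set q : Polynomial ℚ := ∑ w ∈ s, Polynomial.C (a w * φ (m w)) * Polynomial.X ^ d w with hq
  have h1 : q = 0 := by
    apply Polynomial.funext
    intro t
    have h2 := congrArg φ (h t)
    rw [map_sum, map_zero] at h2
    rw [hq, Polynomial.eval_finsetSum, Polynomial.eval_zero, ← h2]
    refine Finset.sum_congr rfl fun w _ => ?_
    rw [Polynomial.eval_mul, Polynomial.eval_C, Polynomial.eval_pow, Polynomial.eval_X, map_smul,
      smul_eq_mul]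
    ring
  have h3 : q.coeff N = 0 := by rw [h1, Polynomial.coeff_zero]
  rw [hq, Polynomial.finsetSum_coeff] at h3
  rw [map_sum, Finset.sum_filter]
  refine Eq.trans (Finset.sum_congr rfl fun w _ => ?_) h3
  rw [Polynomial.coeff_C_mul, Polynomial.coeff_X_pow]
  by_cases hw : d w = N
  · rw [if_pos hw, if_pos hw.symm, mul_one, map_smul, smul_eq_mul]
  · rw [if_neg hw, if_neg (fun h => hw h.symm), mul_zero]

omit hC in
lemma cograph_deg [IsChowProj C] {n : ℕ} (f : U ⟶ S) (hS : S.dim = n) : C.Deg n (C.cograph f) := by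
  have h := cograph_mem (C := C) f
  rw [hS] at h
  exact h

section words

variable {Q κ : Type} [Group Q]

/-- The action `g_*`. -/
noncomputable def gAct (φ : Q →* Aut U) (g : Q) (x : D.M U) : D.M U :=
  D.act (C.graph (φ g).hom) x

/-- The action of the blocks of a word. -/
noncomputable def blocks (φ : Q →* Aut U)
    (P : κ → C.A (U.prod U)) (L : List (Q × (κ × Bool))) (x : D.M U) : D.M U :=
  L.foldl (fun a b => D.act (lett C P b.2) (gAct D φ b.1 a)) x

omit hC in
@[simp] lemma blocks_nil (φ : Q →* Aut U) (P : κ → C.A (U.prod U)) (x : D.M U) :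
    blocks D φ P [] x = x := rfl

omit hC in
@[simp] lemma blocks_cons (φ : Q →* Aut U) (P : κ → C.A (U.prod U))
    (b : Q × (κ × Bool)) (L : List (Q × (κ × Bool))) (x : D.M U) :
    blocks D φ P (b :: L) x = blocks D φ P L (D.act (lett C P b.2) (gAct D φ b.1 x)) := rfl

omit hC in
lemma gAct_add (φ : Q →* Aut U) (g : Q) (x y : D.M U) :
    gAct D φ g (x + y) = gAct D φ g x + gAct D φ g y := map_add (D.act _) x y

omit hC in
lemma gAct_smul (φ : Q →* Aut U) (g : Q) (t : ℚ) (x : D.M U) :
    gAct D φ g (t • x) = t • gAct D φ g x := map_smul (D.act _) t x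

omit hC in
lemma gAct_zero (φ : Q →* Aut U) (g : Q) :
    gAct D φ g (0 : D.M U) = 0 := map_zero (D.act _)

omit hC in
lemma lett_smul (P : κ → C.A (U.prod U)) (t : ℚ) (v : κ × Bool) :
    lett C (fun u => t • P u) v = t • lett C P v := by
  rw [lett, lett]
  split_ifs
  · exact map_smul (C.pull (sw U U)) t (P v.1)
  · rfl

lemma blocks_map_smul (φ : Q →* Aut U) (P : κ → C.A (U.prod U))
    (L : List (Q × (κ × Bool))) (t : ℚ) (x : D.M U) :
    blocks D φ P L (t • x) = t • blocks D φ P L x := by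
  induction L generalizing x with
  | nil => rfl
  | cons b L ih => rw [blocks_cons, gAct_smul, map_smul, ih, blocks_cons]

lemma blocks_smul (φ : Q →* Aut U) (P : κ → C.A (U.prod U)) (t : ℚ)
    (L : List (Q × (κ × Bool))) (x : D.M U) :
    blocks D φ (fun u => t • P u) L x = t ^ L.length • blocks D φ P L x := by
  induction L generalizing x with
  | nil => simp
  | cons b L ih =>
    rw [blocks_cons, blocks_cons, lett_smul, act_smul_left, ih, blocks_map_smul, smul_smul,
      List.length_cons, pow_succ]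

lemma wordAct_zero (φ : Q →* Aut U) (P : κ → C.A (U.prod U))
    (w : List (Q × (κ × Bool)) × Q) : wordAct D φ P w 0 = 0 := by
  have h : blocks D φ P w.1 0 = 0 := by
    have := blocks_map_smul D φ P w.1 0 (0 : D.M U)
    rwa [zero_smul, zero_smul] at this
  change gAct D φ w.2 (blocks D φ P w.1 0) = 0
  rw [h, gAct_zero]

/-- Vanishing implies all identities. -/
theorem isLaw_of_vanishing {n : ℕ} {F : ∀ X : 𝒱.Obj, Submodule ℚ (D.M X)} {𝒰 : 𝒱.Obj → Prop}
    (h : ∀ X, 𝒰 X → ∀ x ∈ F X, x = 0) (T : Finset Q) (p : (List (Q × (κ × Bool)) × Q) →₀ ℚ) :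
    IsLaw D n F 𝒰 T p := by
  intro U hU φ _ P _ x hx
  rw [h U hU x hx]
  refine Finset.sum_eq_zero fun w _ => ?_
  change p w • wordAct D φ P w 0 = 0
  rw [wordAct_zero, smul_zero]

/-- The span of the images of the spaces `F S` under the pull-backs of level less than `a`. -/
def low (F : ∀ X : 𝒱.Obj, Submodule ℚ (D.M X)) {U S : 𝒱.Obj} {B : Type} (f : B → ℕ → (U ⟶ S))
    (a : ℕ) : Submodule ℚ (D.M U) :=
  Submodule.span ℚ {u | ∃ (b : B) (i : ℕ) (z : D.M S), i < a ∧ z ∈ F S ∧
    u = D.act (C.cograph (f b i)) z}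

omit hC in
lemma pull_mem_low {F : ∀ X : 𝒱.Obj, Submodule ℚ (D.M X)} {B : Type} {f : B → ℕ → (U ⟶ S)}
    {a i : ℕ} (b : B) (hi : i < a) {z : D.M S} (hz : z ∈ F S) :
    D.act (C.cograph (f b i)) z ∈ low D F f a :=
  Submodule.subset_span ⟨b, i, z, hi, hz, rfl⟩

omit hC in
lemma low_mono {F : ∀ X : 𝒱.Obj, Submodule ℚ (D.M X)} {B : Type} {f : B → ℕ → (U ⟶ S)}
    {a b : ℕ} (hab : a ≤ b) : low D F f a ≤ low D F f b := by
  refine Submodule.span_mono ?_
  rintro u ⟨b', i, z', hi, hz'⟩
  exact ⟨b', i, z', by omega, hz'⟩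

/-- A single identity implies the vanishing. -/
theorem vanishing_of_isLaw [Group.ResiduallyFinite Q] {n : ℕ}
    {F : ∀ X : 𝒱.Obj, Submodule ℚ (D.M X)} (hst : IsStable D n F) (hred : IsReduced D n F)
    {𝒮 𝒰 : 𝒱.Obj → Prop} (h𝒮 : ∀ X, 𝒮 X → X.dim = n) (h𝒰 : ∀ X, 𝒰 X → X.dim = n)
    (hsec : HasPermSections C n 𝒮 𝒰)
    {T : Finset Q} {p : (List (Q × (κ × Bool)) × Q) →₀ ℚ} (hp : p ≠ 0)
    (h : IsLaw D n F 𝒰 T p) : ∀ X, 𝒮 X → ∀ x ∈ F X, x = 0 := by
  classical
  intro S hSS x hx
  by_contra hx0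
  have hS := h𝒮 S hSS
  obtain ⟨w₀, hw₀⟩ := Finsupp.support_nonempty_iff.2 hp
  -- the separation of the elements of the free group
  set G : Finset Q := (p.support.biUnion fun w => insert w.2 (w.1.map Prod.fst).toFinset) ∪
    insert 1 T with hG
  have hG1 : ∀ w ∈ p.support, w.2 ∈ G := fun w hw => Finset.mem_union_left _
    (Finset.mem_biUnion.2 ⟨w, hw, Finset.mem_insert_self _ _⟩)
  have hG2 : ∀ w ∈ p.support, ∀ b ∈ w.1, b.1 ∈ G := fun w hw b hb => Finset.mem_union_left _
    (Finset.mem_biUnion.2 ⟨w, hw, Finset.mem_insert_of_mem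
      (List.mem_toFinset.2 (List.mem_map.2 ⟨b, hb, rfl⟩))⟩)
  have hGT : ∀ g ∈ T, g ∈ G := fun g hg =>
    Finset.mem_union_right _ (Finset.mem_insert_of_mem hg)
  have hG1' : (1 : Q) ∈ G := Finset.mem_union_right _ (Finset.mem_insert_self _ _)
  obtain ⟨B, hB, σ, b₀, hσ⟩ := RFSep.sep G
  set N : ℕ := w₀.1.length with hN
  obtain ⟨U, f', ρ, hcl, m, c, hUU, hh, hm, hf', hρ, hUc⟩ := hsec S (B × Fin (N + 1)) hSS
  have hU := h𝒰 U hUU
  set f : B → ℕ → (U ⟶ S) := fun b i => f' (b, Fin.ofNat (N + 1) i) with hf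
  have hpp : ∀ b i y, D.act (C.graph (f b i)) (D.act (C.cograph (f b i)) y) = m • y := fun b i y =>
    push_pull_of D (hf' _) y
  have ho : ∀ b i b' i', i ≤ N → i' ≤ N → (b, i) ≠ (b', i') → ∀ y : D.M S, y ∈ F S →
      D.act (C.graph (f b' i')) (D.act (C.cograph (f b i)) y) = 0 := by
    intro b i b' i' hi hi' hne y hy
    refine orth D hred hS (hUc _ _ fun he => hne ?_) hy
    rw [Prod.mk.injEq] at he ⊢
    refine ⟨he.1, ?_⟩
    have h1 := congrArg Fin.val he.2
    simp only [Fin.ofNat] at h1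
    rwa [Nat.mod_eq_of_lt (by omega), Nat.mod_eq_of_lt (by omega)] at h1
  -- the automorphisms
  let θ : Equiv.Perm B →* Equiv.Perm (B × Fin (N + 1)) :=
    { toFun := fun π => Equiv.prodCongr π (Equiv.refl _)
      map_one' := by ext ⟨b, i⟩ <;> rfl
      map_mul' := fun π π' => by ext ⟨b, i⟩ <;> rfl }
  set φ : Q →* Aut U := (ρ.comp θ).comp σ with hφ
  have hlift : ∀ g : Q, φ g = ρ (θ (σ g)) := fun g => rfl
  have hg : ∀ (g : Q) (b : B) (i : ℕ) (y : D.M S),
      gAct D φ g (D.act (C.cograph (f b i)) y) = D.act (C.cograph (f (σ g b) i)) y := by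
    intro g b i y
    change D.act (C.graph (φ g).hom) (D.act (C.cograph (f b i)) y) = _
    rw [graph_pull, hlift, hρ]
    rfl
  have hφT : ∀ g ∈ T, g ≠ 1 → φ g ≠ 1 := by
    intro g hgT hg1 hφg
    have h1 : σ g b₀ ≠ b₀ := by
      intro h2
      refine hg1 (hσ g (hGT g hgT) 1 hG1' ?_)
      rw [h2, map_one]
      rfl
    have h2 : f (σ g b₀) 0 = f b₀ 0 := by
      have h3 : (φ g).inv ≫ f b₀ 0 = f (σ g b₀) 0 := by
        rw [hlift]
        exact hρ _ _
      rw [← h3, hφg]
      exact Category.id_comp _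
    have h3 := ho b₀ 0 (σ g b₀) 0 (Nat.zero_le _) (Nat.zero_le _)
      (fun he => h1 (Prod.mk.inj he).1.symm) x hx
    rw [h2, hpp] at h3
    exact hx0 ((smul_eq_zero.1 h3).resolve_left hm)
  have hglow : ∀ (g : Q) (a : ℕ), ∀ u ∈ low D F f a, gAct D φ g u ∈ low D F f a := by
    intro g a u hu
    have h1 : low D F f a ≤ (low D F f a).comap (D.act (C.graph (φ g).hom)) := by
      rw [low, Submodule.span_le]
      rintro _ ⟨b, i, z, hi, hz, rfl⟩
      change gAct D φ g (D.act (C.cograph (f b i)) z) ∈ low D F f a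
      rw [hg]
      exact pull_mem_low D _ hi hz
    exact h1 hu
  -- the elementary correspondences
  set s : ℕ → B := fun i => σ ((w₀.1.map Prod.fst).getD i 1) b₀ with hs
  set E : ℕ → C.A (U.prod U) := fun i => m⁻¹ • sand C (f (s i) i) (f b₀ (i + 1)) with hE
  have hEd : ∀ i, C.Deg n (E i) := fun i => Submodule.smul_mem _ _ (sand_deg _ _ hU hS)
  have hEa : ∀ i < N, ∀ b, ∀ a ≤ N, ∀ y : D.M S, y ∈ F S →
      D.act (E i) (D.act (C.cograph (f b a)) y) = if i = a ∧ s i = b then D.act (C.cograph (f b₀ (a + 1))) y else 0 := by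
    intro i hi b a ha y hy
    rw [hE]
    dsimp only
    rw [act_smul_left, act_sand]
    split_ifs with hia
    · obtain ⟨rfl, rfl⟩ := hia
      rw [hpp, map_smul, smul_smul, inv_mul_cancel₀ hm, one_smul]
    · rw [ho b a (s i) i ha hi.le ?_ y hy, map_zero, smul_zero]
      intro he
      rw [Prod.mk.injEq] at he
      exact hia ⟨he.2.symm, he.1.symm⟩
  have hEt : ∀ i < N, ∀ b, ∀ a ≤ N, ∀ y : D.M S, y ∈ F S →
      D.act (tp C (E i)) (D.act (C.cograph (f b a)) y) ∈ low D F f a := by
    intro i hi b a ha y hy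
    have h1 : tp C (E i) = m⁻¹ • sand C (f b₀ (i + 1)) (f (s i) i) := by
      rw [← tp_sand]
      exact map_smul (C.pull (sw U U)) _ _
    rw [h1, act_smul_left, act_sand]
    refine Submodule.smul_mem _ _ ?_
    by_cases hia : i + 1 = a ∧ b₀ = b
    · obtain ⟨rfl, rfl⟩ := hia
      rw [hpp, map_smul]
      exact Submodule.smul_mem _ _ (pull_mem_low D _ (by omega) hy)
    · rw [ho b a b₀ (i + 1) ha hi ?_ y hy, map_zero]
      · exact Submodule.zero_mem _
      intro he
      rw [Prod.mk.injEq] at he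
      exact hia ⟨he.2.symm, he.1.symm⟩
  -- the substitution
  set R : κ × Bool → C.A (U.prod U) := fun v =>
    ∑ i ∈ Finset.range N, if (w₀.1.map Prod.snd)[i]? = some v then E i else 0 with hR
  have hFa : ∀ (v : κ × Bool) (b : B) (a : ℕ), a ≤ N → ∀ y : D.M S, y ∈ F S →
      D.act (R v) (D.act (C.cograph (f b a)) y) = if (w₀.1.map Prod.snd)[a]? = some v ∧ s a = b then
        D.act (C.cograph (f b₀ (a + 1))) y else 0 := by
    intro v b a ha y hy
    rw [hR]
    dsimp only
    rw [act_sum_left]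
    split_ifs with hv
    · have hal : a < N := by
        have := (List.getElem?_eq_some_iff.1 hv.1).1
        rwa [List.length_map] at this
      rw [Finset.sum_eq_single a]
      · rw [if_pos hv.1, hEa a hal b a ha y hy, if_pos ⟨rfl, hv.2⟩]
      · intro i hi hia
        split_ifs
        · rw [hEa i (Finset.mem_range.1 hi) b a ha y hy, if_neg fun h => hia h.1]
        · exact act_zero_left D _
      · intro h1
        exact absurd (Finset.mem_range.2 hal) h1
    · refine Finset.sum_eq_zero fun i hi => ?_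
      split_ifs with h1
      · rw [hEa i (Finset.mem_range.1 hi) b a ha y hy, if_neg]
        rintro ⟨rfl, h2⟩
        exact hv ⟨h1, h2⟩
      · exact act_zero_left D _
  have hFt : ∀ (v : κ × Bool) (b : B) (a : ℕ), a ≤ N → ∀ y : D.M S, y ∈ F S →
      D.act (tp C (R v)) (D.act (C.cograph (f b a)) y) ∈ low D F f a := by
    intro v b a ha y hy
    have h1 : tp C (R v) = ∑ i ∈ Finset.range N,
        tp C (if (w₀.1.map Prod.snd)[i]? = some v then E i else 0) :=
      map_sum (C.pull (sw U U)) _ _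
    rw [h1, act_sum_left]
    refine Submodule.sum_mem _ fun i hi => ?_
    split_ifs
    · exact hEt i (Finset.mem_range.1 hi) b a ha y hy
    · have h2 : tp C (0 : C.A (U.prod U)) = 0 := map_zero (C.pull (sw U U))
      rw [h2, act_zero_left]
      exact Submodule.zero_mem _
  set V : κ → C.A (U.prod U) := fun u => R (u, false) + tp C (R (u, true)) with hV
  have hVl : ∀ v : κ × Bool, lett C V v = R v + tp C (R (v.1, !v.2)) := by
    rintro ⟨u, b⟩
    rcases b with _ | _
    · rw [lett, if_neg (by simp)]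
      rfl
    · rw [lett, if_pos rfl]
      change tp C (R (u, false) + tp C (R (u, true))) = R (u, true) + tp C (R (u, false))
      rw [tp_add, tp_tp, add_comm]
  have hVd : ∀ u, C.Deg n (V u) := by
    intro u
    have hFd : ∀ v, C.Deg n (R v) := by
      intro v
      refine Submodule.sum_mem _ fun j _ => ?_
      split_ifs
      · exact hEd j
      · exact Submodule.zero_mem _
    exact Submodule.add_mem _ (hFd _) (tp_mem C (hFd _))
  have hlow : ∀ (v : κ × Bool) (a : ℕ), a ≤ N → ∀ u ∈ low D F f a,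
      D.act (lett C V v) u ∈ low D F f (a + 1) := by
    intro v a ha u hu
    have h1 : low D F f a ≤ (low D F f (a + 1)).comap (D.act (lett C V v)) := by
      rw [low, Submodule.span_le]
      rintro _ ⟨b, i, z, hi, hz, rfl⟩
      change D.act (lett C V v) (D.act (C.cograph (f b i)) z) ∈ low D F f (a + 1)
      rw [hVl, act_add_left, hFa v b i (by omega) z hz]
      refine Submodule.add_mem _ ?_ (low_mono D (by omega) (hFt _ b i (by omega) z hz))
      split_ifs
      · exact pull_mem_low D _ (by omega) hz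
      · exact Submodule.zero_mem _
    exact h1 hu
  -- paths
  have path : ∀ (L : List (Q × (κ × Bool))), (∀ b ∈ L, b.1 ∈ G) → ∀ a : ℕ,
      a + L.length ≤ N → ∀ y : D.M S, y ∈ F S → ∀ u ∈ low D F f a,
      ∃ u' ∈ low D F f (a + L.length), blocks D φ V L (D.act (C.cograph (f b₀ a)) y + u) =
        (if L <+: w₀.1.drop a then D.act (C.cograph (f b₀ (a + L.length))) y else 0) + u' := by
    intro L
    induction L with
    | nil =>
      intro _ a ha y hy u hu
      exact ⟨u, hu, by simp⟩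
    | cons b L ih =>
      intro hLG a ha y hy u hu
      rw [List.length_cons] at ha
      have hal : a < N := by omega
      have hal' : a < w₀.1.length := hal
      have hsa : s a = σ (w₀.1[a].1) b₀ := by
        rw [hs]
        dsimp only
        rw [List.getD_eq_getElem _ _ (by rwa [List.length_map]), List.getElem_map]
      have hcond : ((w₀.1.map Prod.snd)[a]? = some b.2 ∧ s a = σ b.1 b₀) ↔
          w₀.1[a] = b := by
        rw [List.getElem?_map, List.getElem?_eq_getElem hal', Option.map_some, Option.some.injEq,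
          hsa]
        constructor
        · rintro ⟨h1, h2⟩
          have h3 : w₀.1[a].1 = b.1 :=
            hσ _ (hG2 w₀ hw₀ _ (List.getElem_mem hal')) _ (hLG b List.mem_cons_self) h2
          exact Prod.ext h3 h1
        · intro h1
          rw [h1]
          exact ⟨rfl, rfl⟩
      set u1 : D.M U := D.act (tp C (R (b.2.1, !b.2.2))) (D.act (C.cograph (f (σ b.1 b₀) a)) y) +
        D.act (lett C V b.2) (gAct D φ b.1 u) with hu1
      have e1 : D.act (lett C V b.2) (gAct D φ b.1 (D.act (C.cograph (f b₀ a)) y + u)) =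
          (if w₀.1[a] = b then D.act (C.cograph (f b₀ (a + 1))) y else 0) + u1 := by
        rw [gAct_add, hg, map_add]
        nth_rewrite 1 [hVl]
        rw [act_add_left, hFa b.2 _ a hal.le y hy, add_assoc]
        congr 1
        by_cases h1 : w₀.1[a] = b
        · rw [if_pos (hcond.2 h1), if_pos h1]
        · rw [if_neg fun h2 => h1 (hcond.1 h2), if_neg h1]
      have hu1' : u1 ∈ low D F f (a + 1) := by
        refine Submodule.add_mem _ ?_ (hlow b.2 a hal.le _ (hglow _ _ _ hu))
        exact low_mono D (by omega) (hFt _ _ a hal.le y hy)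
      rw [blocks_cons, e1]
      have hLG' : ∀ b ∈ L, b.1 ∈ G := fun b hb => hLG b (List.mem_cons_of_mem _ hb)
      have hdr : w₀.1.drop a = w₀.1[a] :: w₀.1.drop (a + 1) := List.drop_eq_getElem_cons hal'
      by_cases hv : w₀.1[a] = b
      · obtain ⟨u', hu', h2⟩ := ih hLG' (a + 1) (by omega) y hy _ hu1'
        rw [if_pos hv, h2, hdr, hv]
        refine ⟨u', ?_, ?_⟩
        · rw [List.length_cons, show a + (L.length + 1) = a + 1 + L.length by omega]
          exact hu'
        · simp only [List.cons_prefix_cons, true_and, List.length_cons]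
          rw [show a + 1 + L.length = a + (L.length + 1) by omega]
      · have e2 : (0 : D.M U) = D.act (C.cograph (f b₀ (a + 1))) 0 := (map_zero _).symm
        obtain ⟨u', hu', h2⟩ := ih hLG' (a + 1) (by omega) 0 (F S).zero_mem _ hu1'
        rw [if_neg hv, if_neg]
        · nth_rewrite 1 [e2]
          rw [h2]
          refine ⟨u', ?_, ?_⟩
          · rw [List.length_cons, show a + (L.length + 1) = a + 1 + L.length by omega]
            exact hu'
          · rw [map_zero, ite_self]
        · rw [hdr, List.cons_prefix_cons]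
          exact fun h3 => hv h3.1.symm
  -- the projection
  set bN : B := σ w₀.2 b₀ with hbN
  have hpush : ∀ u ∈ low D F f N, D.act (C.graph (f bN N)) u = 0 := by
    intro u hu
    have h1 : low D F f N ≤ LinearMap.ker (D.act (C.graph (f bN N))) := by
      rw [low, Submodule.span_le]
      rintro _ ⟨b, i, z, hi, hz, rfl⟩
      refine ho b i bN N hi.le le_rfl ?_ z hz
      intro he
      rw [Prod.mk.injEq] at he
      omega
    exact h1 hu
  have h1 : ∀ t : ℚ, ∑ w ∈ p.support, (p w * t ^ w.1.length) •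
      D.act (C.graph (f bN N)) (gAct D φ w.2 (blocks D φ V w.1 (D.act (C.cograph (f b₀ 0)) x))) = 0 := by
    intro t
    have h2 := h U hUU φ hφT (fun u => t • V u) (fun u => Submodule.smul_mem _ _ (hVd u))
      (D.act (C.cograph (f b₀ 0)) x) (hst S U hS hU _ (cograph_deg _ hS) x hx)
    have h3 := congrArg (D.act (C.graph (f bN N))) h2
    rw [map_zero, Finsupp.sum, map_sum] at h3
    rw [← h3]
    refine Finset.sum_congr rfl fun w _ => ?_
    change _ = D.act (C.graph (f bN N)) (p w • gAct D φ w.2 (blocks D φ (fun u => t • V u) w.1 _))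
    rw [blocks_smul, gAct_smul, map_smul, map_smul, smul_smul]
  have h2 := homog p.support (fun w => p w) (fun w => w.1.length) _ h1 N
  rw [Finset.sum_eq_single w₀] at h2
  · obtain ⟨u', hu', h3⟩ := path w₀.1 (hG2 w₀ hw₀) 0 (by simp [hN]) x hx 0 (Submodule.zero_mem _)
    rw [add_zero] at h3
    rw [zero_add] at hu' h3
    rw [h3, if_pos (by simp), gAct_add, hg, map_add, hpp, hpush _ (hglow _ _ _ hu'), add_zero,
      smul_smul] at h2
    exact hx0 ((smul_eq_zero.1 h2).resolve_left
      (mul_ne_zero (Finsupp.mem_support_iff.1 hw₀) hm))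
  · intro w hw hne
    have hws : w ∈ p.support := (Finset.mem_filter.1 hw).1
    have hwl : w.1.length = N := (Finset.mem_filter.1 hw).2
    obtain ⟨u', hu', h3⟩ := path w.1 (hG2 w hws) 0 (by omega) x hx 0 (Submodule.zero_mem _)
    rw [add_zero] at h3
    rw [zero_add, hwl] at hu'
    rw [h3, gAct_add, map_add, hpush _ (hglow _ _ _ hu'), add_zero]
    split_ifs with h4
    · rw [zero_add, hwl, hg, ho _ N bN N le_rfl le_rfl ?_ x hx, smul_zero]
      intro he
      rw [Prod.mk.injEq] at he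
      have h5 : w.2 = w₀.2 := hσ _ (hG1 w hws) _ (hG1 w₀ hw₀) he.1
      rw [List.drop_zero] at h4
      exact hne (Prod.ext (h4.eq_of_length hwl) h5)
    · rw [gAct_zero, map_zero, smul_zero]
  · intro h3
    exact absurd (Finset.mem_filter.2 ⟨hw₀, rfl⟩ :
      w₀ ∈ p.support.filter fun w => w.1.length = N) h3

/-- The vanishing is equivalent to each single identity. -/
theorem vanishing_iff_isLaw [Group.ResiduallyFinite Q] {n : ℕ}
    {F : ∀ X : 𝒱.Obj, Submodule ℚ (D.M X)} (hst : IsStable D n F) (hred : IsReduced D n F)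
    {𝒮 𝒰 : 𝒱.Obj → Prop} (h𝒮 : ∀ X, 𝒮 X → X.dim = n) (h𝒰 : ∀ X, 𝒰 X → 𝒮 X)
    (hsec : HasPermSections C n 𝒮 𝒰) (T : Finset Q)
    {p : (List (Q × (κ × Bool)) × Q) →₀ ℚ} (hp : p ≠ 0) :
    (∀ X, 𝒮 X → ∀ x ∈ F X, x = 0) ↔ IsLaw D n F 𝒰 T p :=
  ⟨fun h => isLaw_of_vanishing D (fun X hX => h X (h𝒰 X hX)) T p,
    fun h => vanishing_of_isLaw D hst hred h𝒮 (fun X hX => h𝒮 X (h𝒰 X hX)) hsec hp h⟩

end words

section cycles

variable (C) in
/-- The Chow groups as a theory with an action of correspondences. -/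
noncomputable def cycles : CorrMod.{u, v, v} C where
  M X := C.A X
  act := actB C
  act_comp Γ Δ x := C.act_comp Γ Δ x
  act_dg x := act_dg C x

/-- On numerically trivial cycles the correspondences `a × b` act as zero. -/
lemma isReduced_cycles {n : ℕ} {F : ∀ X : 𝒱.Obj, Submodule ℚ (C.A X)}
    (h : ∀ X : 𝒱.Obj, X.dim = n → ∀ x ∈ F X, ∀ a : C.A X, HasDegree C (a * x) 0) :
    IsReduced (cycles C) n F := by
  intro X hX a b
  suffices key : ∀ x : C.A X, x ∈ F X → C.act (C.ext a b) x = 0 from key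
  intro x hx
  rw [TheoryData.act_apply, TheoryData.ext]
  have e1 : C.pull (fst X X) a * C.pull (snd X X) b * C.pull (fst X X) x =
      C.pull (snd X X) b * C.pull (fst X X) (a * x) := by
    rw [ch_comm C (C.pull (fst X X) a), mul_assoc, ← map_mul]
  rw [e1, C.proj_left, (h X hX x hx a X).1, zero_smul, mul_zero]

end cycles

end Pool.Agent.TH629.CM
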