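import Pool.Agent.TH629.CM.AJ
import Pool.Agent.TH629.CM.DefsOdd

/-!
# Identities for homologically trivial cycles on varieties without cohomology of small odd degree
-/

open CategoryTheory AlgebraicGeometry

universe u v w

namespace Pool.Agent.TH629.CM.Th

open Pool.Agent.H914 Pool.Agent.H914.VarClass Pool.Agent.H914.VarClass.Obj Pool.Agent.W492.BB
  Pool.Agent.W550.Corr Pool.Agent.TH133

variable {k : Type u} [Field k] {𝒱 : VarClass k} {C : TheoryData.{u, v, 0} 𝒱 ℚ}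
  [hC : IsChowProj C] {X Y Z W : 𝒱.Obj} {K : Type w} [Field K] {H : WeilTheoryData.{u, v, w} C K}
  [hH : IsWeilProj H]

include hC hH

lemma homTriv_act {n m : ℕ} (hX : X.dim = n) {Γ : C.A (X.prod Y)} (hΓ : C.Deg n Γ)
    {z : C.A X} (hz : z ∈ homTriv H X m) : C.act Γ z ∈ homTriv H Y m := by
  refine ⟨?_, cl_act_zero hz.2⟩
  have h2 : Γ ∈ C.gr (X.prod Y) (X.dim + (0 : ℤ)) := by
    rw [add_zero, hX]; exact hΓ
  have h3 := act_mem' C h2 hz.1
  rwa [add_zero] at h3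

theorem odd_iff {𝒰 : ℕ → ℕ → 𝒱.Obj → Prop} (h𝒰 : IsLargeOdd H 𝒰) (m : ℕ) {r n : ℕ} (hr : r < n)
    (a : Ident) :
    HomVanishes H m (NoOddCohomology H r n) ↔ HoldsOnHom H m a n (𝒰 r n) := by
  have h := vanishing_iff_isLaw (cycles C) (F := fun X => homTriv H X m) (n := n)
    (fun X Y hX hY Γ hΓ x hx => homTriv_act hX hΓ hx)
    (isReduced_cycles fun X _ x hx a => hasDegree_mul (H := H) (m := m) hx a)
    (𝒮 := NoOddCohomology H r n) (𝒰 := 𝒰 r n) (fun _ h => h.1) (h𝒰 r n hr).1 (h𝒰 r n hr).2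
    a.T a.ne_zero
  exact h

theorem zeroCycles_iff {𝒰 : ℕ → ℕ → 𝒱.Obj → Prop} (h𝒰 : IsLargeOdd H 𝒰)
    (hS : HasRegularSurfaces H) (a : Ident) :
    (∀ n, 2 ≤ n → HomVanishes H n (NoOddCohomology H 1 n)) ↔ HoldsOnHom H 2 a 2 (𝒰 1 2) := by
  rw [← odd_iff h𝒰 2 (by norm_num) a]
  refine ⟨fun h => h 2 le_rfl, fun h n hn X hX z hz => ?_⟩
  obtain ⟨S, y, Φ, hS1, hy, rfl⟩ := hS n X hn hX z hz
  rw [h S hS1 y hy, TheoryData.act_map_zero]

end Pool.Agent.TH629.CM.Th
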