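import Pool.Agent.TH629.CM.Odd
import Pool.Agent.TH629.CM.DefsTate
import Mathlib.Algebra.Algebra.Rat

/-!
# Identities modulo algebraic classes
-/

open CategoryTheory AlgebraicGeometry

universe u v w

namespace Pool.Agent.TH629.CM.Th

open Pool.Agent.H914 Pool.Agent.H914.VarClass Pool.Agent.H914.VarClass.Obj Pool.Agent.W492.BB
  Pool.Agent.W550.Corr Pool.Agent.TH133

set_option linter.unusedSectionVars false

variable {k : Type u} [Field k] {𝒱 : VarClass k} {C : TheoryData.{u, v, 0} 𝒱 ℚ}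
  [hC : IsChowProj C] {X Y Z W : 𝒱.Obj} {K : Type w} [Field K] [CharZero K]
  {H : WeilTheoryData.{u, v, w} C K} [hH : IsWeilProj H]

include hC hH

omit [CharZero K] in
/-- The push-forward to `Y` of the pull-back of a class of `X` is a constant. -/
lemma push_pull_const (y : H.A X) (Y : 𝒱.Obj) :
    ∃ c : K, H.push (snd X Y) (H.pull (fst X Y) y) = c • (1 : H.A Y) := by
  have htop : y ∈ (⨆ i, H.gr X i) := by
    rw [(H.isInternal X).submodule_iSup_eq_top]
    exact Submodule.mem_top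
  refine Submodule.iSup_induction (fun i => H.gr X i)
    (motive := fun y => ∃ c : K, H.push (snd X Y) (H.pull (fst X Y) y) = c • (1 : H.A Y))
    htop ?_ ?_ ?_
  · intro i y hy
    have h1 := H.push_mem (snd X Y) (H.pull_mem (fst X Y) hy)
    rw [dim_prod] at h1
    rcases lt_trichotomy i (2 * X.dim) with hi | hi | hi
    · refine ⟨0, ?_⟩
      rw [H.gr_neg Y _ (by push_cast; omega)] at h1
      rw [(Submodule.mem_bot _).1 h1, zero_smul]
    · refine hH.gr_zero Y _ ?_
      have e : i + 2 * ((Y.dim : ℤ) - ((X.dim + Y.dim : ℕ) : ℤ)) = 0 := by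
        push_cast
        omega
      rw [e] at h1
      exact h1
    · refine ⟨0, ?_⟩
      rw [gr_top H hi] at hy
      rw [(Submodule.mem_bot _).1 hy, map_zero, map_zero, zero_smul]
  · exact ⟨0, by rw [map_zero, map_zero, zero_smul]⟩
  · rintro a b ⟨c, hc⟩ ⟨d, hd⟩
    exact ⟨c + d, by rw [map_add, map_add, hc, hd, add_smul]⟩

omit [CharZero K] in
lemma act_ext_mem (v : C.A X) (α : C.A Y) (t : H.A X) :
    H.act (H.cl (C.ext v α)) t ∈ algSpan H Y := by
  obtain ⟨c, hc⟩ := push_pull_const (H := H) (H.cl v * t) Y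
  have h1 : H.act (H.cl (C.ext v α)) t = c • H.cl α := by
    rw [TheoryData.act_apply, TheoryData.ext, map_mul H.cl, H.cl_pull, H.cl_pull]
    have e1 : H.pull (fst X Y) (H.cl v) * H.pull (snd X Y) (H.cl α) * H.pull (fst X Y) t =
        H.pull (snd X Y) (H.cl α) * H.pull (fst X Y) (H.cl v * t) := by
      have h2 : H.pull (fst X Y) (H.cl v) * H.pull (snd X Y) (H.cl α) =
          H.pull (snd X Y) (H.cl α) * H.pull (fst X Y) (H.cl v) := by
        rw [← H.cl_pull, ← H.cl_pull, ← map_mul, ← map_mul,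
          ch_comm C (C.pull (fst X Y) v)]
      rw [h2, mul_assoc, ← map_mul]
    rw [e1, H.proj_left, hc, mul_smul_comm, mul_one]
  rw [h1]
  exact Submodule.smul_mem _ _ (Submodule.subset_span ⟨α, rfl⟩)

omit [CharZero K] in
lemma algSpan_act (Γ : C.A (X.prod Y)) :
    algSpan H X ≤ (algSpan H Y).comap (actB H.toTheoryData (H.cl Γ)) := by
  refine Submodule.span_le.2 ?_
  rintro _ ⟨z, rfl⟩
  refine Submodule.subset_span ⟨C.act Γ z, ?_⟩
  exact cl_act H Γ z

lemma cl_rat_smul (q : ℚ) (Γ : C.A X) : H.cl (q • Γ) = (q : K) • H.cl Γ := by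
  rw [Algebra.smul_def, map_mul]
  have h : (H.cl (X := X)).comp (algebraMap ℚ (C.A X)) =
      (algebraMap K (H.A X)).comp (Rat.castHom K) := RingHom.ext_rat _ _
  have h1 : H.cl (algebraMap ℚ (C.A X) q) = algebraMap K (H.A X) (q : K) :=
    RingHom.congr_fun h q
  rw [h1, ← Algebra.smul_def]

end Pool.Agent.TH629.CM.Th

namespace Pool.Agent.TH629.CM.Th

open Pool.Agent.H914 Pool.Agent.H914.VarClass Pool.Agent.H914.VarClass.Obj Pool.Agent.W492.BB
  Pool.Agent.W550.Corr Pool.Agent.TH133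

set_option linter.unusedSectionVars false

variable {k : Type u} [Field k] {𝒱 : VarClass k} {C : TheoryData.{u, v, 0} 𝒱 ℚ}
  {X Y Z W : 𝒱.Obj} {K : Type w} [Field K]
  {H : WeilTheoryData.{u, v, w} C K}

variable (H) in
/-- The cohomology modulo the algebraic classes. -/
def QM (X : 𝒱.Obj) : Type v := H.A X ⧸ algSpan H X

noncomputable instance (X : 𝒱.Obj) : AddCommGroup (QM H X) :=
  inferInstanceAs (AddCommGroup (H.A X ⧸ algSpan H X))

noncomputable instance modK (X : 𝒱.Obj) : Module K (QM H X) :=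
  inferInstanceAs (Module K (H.A X ⧸ algSpan H X))

noncomputable instance modQ [CharZero K] (X : 𝒱.Obj) : Module ℚ (QM H X) :=
  Module.compHom _ (Rat.castHom K)

lemma rat_smul_eq [CharZero K] (q : ℚ) (x : QM H X) : q • x = (q : K) • x := rfl

variable (H) in
/-- The projection. -/
noncomputable def toQM (X : 𝒱.Obj) : H.A X →ₗ[K] QM H X := (algSpan H X).mkQ

lemma toQM_surjective (X : 𝒱.Obj) : Function.Surjective (toQM H X) :=
  Submodule.mkQ_surjective _

lemma toQM_eq_zero {t : H.A X} : toQM H X t = 0 ↔ t ∈ algSpan H X :=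
  Submodule.Quotient.mk_eq_zero _

variable [hC : IsChowProj C] [hH : IsWeilProj H]

/-- The action of a correspondence on the quotient. -/
noncomputable def actQM (Γ : C.A (X.prod Y)) : QM H X →ₗ[K] QM H Y :=
  Submodule.mapQ (algSpan H X) (algSpan H Y) (actB H.toTheoryData (H.cl Γ)) (algSpan_act Γ)

lemma actQM_toQM (Γ : C.A (X.prod Y)) (t : H.A X) :
    actQM Γ (toQM H X t) = toQM H Y (H.act (H.cl Γ) t) := rfl

variable [CharZero K]

variable (H) in
/-- The cohomology modulo the algebraic classes, with the action of correspondences. -/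
noncomputable def cohMod : CorrMod.{u, v, v} C where
  M X := QM H X
  act {X Y} :=
    { toFun := fun Γ =>
        { toFun := fun x => actQM Γ x
          map_add' := fun x y => map_add _ x y
          map_smul' := fun q x => by
            rw [rat_smul_eq, RingHom.id_apply, rat_smul_eq, map_smul] }
      map_add' := fun Γ Δ => LinearMap.ext fun x => by
        obtain ⟨t, rfl⟩ := toQM_surjective X x
        have h : H.act (H.cl (Γ + Δ)) t = H.act (H.cl Γ) t + H.act (H.cl Δ) t := by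
          rw [map_add]
          exact H.toTheoryData.act_add _ _ _
        change actQM (Γ + Δ) (toQM H X t) = actQM Γ (toQM H X t) + actQM Δ (toQM H X t)
        rw [actQM_toQM, actQM_toQM, actQM_toQM, h, map_add]
      map_smul' := fun q Γ => LinearMap.ext fun x => by
        obtain ⟨t, rfl⟩ := toQM_surjective X x
        have h : H.act (H.cl (q • Γ)) t = (q : K) • H.act (H.cl Γ) t := by
          rw [cl_rat_smul]
          exact LinearMap.map_smul₂ (actB H.toTheoryData) (q : K) (H.cl Γ) t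
        change actQM (q • Γ) (toQM H X t) = (q : K) • actQM Γ (toQM H X t)
        rw [actQM_toQM, actQM_toQM, h, map_smul] }
  act_comp {X Y Z} Γ Δ x := by
    obtain ⟨t, rfl⟩ := toQM_surjective X x
    change actQM (C.comp Γ Δ) (toQM H X t) = actQM Δ (actQM Γ (toQM H X t))
    rw [actQM_toQM, actQM_toQM, actQM_toQM, actH_comp]
  act_dg {X} x := by
    obtain ⟨t, rfl⟩ := toQM_surjective X x
    change actQM (dg C X) (toQM H X t) = toQM H X t
    rw [actQM_toQM, actH_dg]

variable (H) in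
/-- The projection, to the space of the theory. -/
noncomputable def toC (X : 𝒱.Obj) (t : H.A X) : (cohMod H).M X := toQM H X t

lemma toC_eq_zero {t : H.A X} : toC H X t = 0 ↔ t ∈ algSpan H X := toQM_eq_zero

lemma toC_add (t t' : H.A X) : toC H X (t + t') = toC H X t + toC H X t' := map_add (toQM H X) t t'

lemma toC_smul (q : ℚ) (t : H.A X) : toC H X ((q : K) • t) = q • toC H X t :=
  map_smul (toQM H X) (q : K) t

lemma toC_zero : toC H X (0 : H.A X) = 0 := map_zero (toQM H X)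

lemma act_toC (Γ : C.A (X.prod Y)) (t : H.A X) :
    (cohMod H).act Γ (toC H X t) = toC H Y (H.act (H.cl Γ) t) := rfl

/-- The images of the classes in the family. -/
noncomputable def famQ (𝒯 : Classes H) (X : 𝒱.Obj) : Submodule ℚ ((cohMod H).M X) where
  carrier := {x | ∃ t ∈ 𝒯.T X, toC H X t = x}
  zero_mem' := ⟨0, Submodule.zero_mem _, toC_zero⟩
  add_mem' := by
    rintro _ _ ⟨t, ht, rfl⟩ ⟨t', ht', rfl⟩
    exact ⟨t + t', Submodule.add_mem _ ht ht', toC_add t t'⟩
  smul_mem' := by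
    rintro q _ ⟨t, ht, rfl⟩
    exact ⟨(q : K) • t, Submodule.smul_mem _ _ ht, toC_smul q t⟩

lemma toC_wordCoh {U : 𝒱.Obj} {Q κ : Type} [Group Q] (φ : Q →* Aut U)
    (P : κ → C.A (U.prod U)) (w : List (Q × (κ × Bool)) × Q) (t : H.A U) :
    CM.wordAct (cohMod H) φ P w (toC H U t) = toC H U (wordCoh H φ P w t) := by
  obtain ⟨l, g⟩ := w
  unfold CM.wordAct wordCoh
  have h : ∀ t : H.A U, l.foldl (fun a b => (cohMod H).act (CM.lett C P b.2)
      ((cohMod H).act (C.graph (φ b.1).hom) a)) (toC H U t) =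
      toC H U (l.foldl (fun a b => H.act (H.cl (lett C P b.2))
        (H.act (H.cl (C.graph (φ b.1).hom)) a)) t) := by
    induction l with
    | nil =>
      intro t
      rfl
    | cons b l ih =>
      intro t
      exact ih _
  exact congrArg _ (h t)

lemma isLaw_cohMod_iff (𝒯 : Classes H) (n : ℕ) (a : Ident) (𝒰 : 𝒱.Obj → Prop) :
    IsLaw (cohMod H) n (famQ 𝒯) 𝒰 a.T a.p ↔ 𝒯.HoldsModuloAlgebraic a n 𝒰 := by
  have key : ∀ (U : 𝒱.Obj) (φ : a.Q →* Aut U) (P : a.κ → C.A (U.prod U)) (t : H.A U),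
      (a.p.sum fun w q => q • CM.wordAct (cohMod H) φ P w (toC H U t)) =
        toC H U (a.p.sum fun w q => (q : K) • wordCoh H φ P w t) := by
    intro U φ P t
    classical
    have h0 : ∀ s : Finset (List (a.Q × (a.κ × Bool)) × a.Q),
        (∑ w ∈ s, a.p w • CM.wordAct (cohMod H) φ P w (toC H U t)) =
          toC H U (∑ w ∈ s, (a.p w : K) • wordCoh H φ P w t) := by
      intro s
      induction s using Finset.induction_on with
      | empty =>
        rw [Finset.sum_empty, Finset.sum_empty, toC_zero]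
      | insert w s hw ih =>
        rw [Finset.sum_insert hw, Finset.sum_insert hw, ih, toC_add, toC_smul, toC_wordCoh]
    exact h0 a.p.support
  constructor
  · intro h U hU φ hφ P hP t ht
    have h1 := h U hU φ hφ P hP _ ⟨t, ht, rfl⟩
    rw [key] at h1
    exact toC_eq_zero.1 h1
  · rintro h U hU φ hφ P hP _ ⟨t, ht, rfl⟩
    rw [key]
    exact toC_eq_zero.2 (h U hU φ hφ P hP t ht)

/-- All classes are algebraic in dimension `n` if and only if one identity holds. -/
theorem tate_iff (𝒯 : Classes H) (hst : 𝒯.IsStable) (n : ℕ) (𝒰 : 𝒱.Obj → Prop)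
    (h𝒰 : ∀ X, 𝒰 X → X.dim = n) (hsec : HasPermSections C n (fun X => X.dim = n) 𝒰)
    (a : Ident) : 𝒯.AlgebraicIn n ↔ 𝒯.HoldsModuloAlgebraic a n 𝒰 := by
  rw [← isLaw_cohMod_iff]
  have h0 : 𝒯.AlgebraicIn n ↔ ∀ X : 𝒱.Obj, X.dim = n → ∀ x ∈ famQ 𝒯 X, x = 0 := by
    constructor
    · rintro h X hX _ ⟨t, ht, rfl⟩
      exact toC_eq_zero.2 (h X hX t ht)
    · intro h X hX t ht
      exact toC_eq_zero.1 (h X hX _ ⟨t, ht, rfl⟩)
  rw [h0]
  refine vanishing_iff_isLaw (cohMod H) (F := famQ 𝒯) (n := n) ?_ ?_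
    (𝒮 := fun X => X.dim = n) (𝒰 := 𝒰) (fun _ h => h) h𝒰 hsec a.T a.ne_zero
  · rintro X Y hX hY Γ hΓ _ ⟨t, ht, rfl⟩
    exact ⟨H.act (H.cl Γ) t, hst X Y (hX.trans hY.symm) Γ (by rw [hX]; exact hΓ) t ht, rfl⟩
  · rintro X hX b c _ ⟨t, ht, rfl⟩
    rw [act_toC]
    exact toC_eq_zero.2 (act_ext_mem b c t)

/-- All classes are algebraic if and only if one identity holds for surfaces. -/
theorem tate_surfaces_iff (𝒯 : Classes H) (hst : 𝒯.IsStable) (hS : 𝒯.DetectedOnSurfaces)
    (𝒰 : 𝒱.Obj → Prop) (h𝒰 : ∀ X, 𝒰 X → X.dim = 2)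
    (hsec : HasPermSections C 2 (fun X => X.dim = 2) 𝒰) (a : Ident) :
    (∀ n, 𝒯.AlgebraicIn n) ↔ 𝒯.HoldsModuloAlgebraic a 2 𝒰 := by
  rw [← tate_iff 𝒯 hst 2 𝒰 h𝒰 hsec a]
  refine ⟨fun h => h 2, fun h n X _ t ht => ?_⟩
  obtain ⟨S, Φ, h2, h3, h4⟩ := hS X t ht
  exact h4 (h S h2 _ h3)

end Pool.Agent.TH629.CM.Th
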